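import Mathlib

/-!
# The Cartier operator on polynomials and Hasse polynomials of Legendre curves

`T f` is `X` times the Cartier operator of `f`, over a commutative ring of characteristic `p`.
`H h l = ∑_{i ≤ h} C(h,i)² l^i`. Lemma `T_sum` computes `T` of
`(N(N-D)(N-lD))^h D^h (N'D-ND')` when `2h+1 = p` and `N`, `D` are products of linear polynomials.
-/

set_option autoImplicit false
set_option linter.unusedSectionVars false

open Polynomial Finset

namespace Pool.Agent.X314.Cartier

variable {R : Type*} [CommRing R] {p : ℕ} [hp : Fact p.Prime] [CharP R p]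

variable (R p) in
/-- `T f` is `X` times the Cartier operator of `f` -/
noncomputable def T : R[X] →ₗ[R] R[X] where
  toFun f := contract p (X * f)
  map_add' f g := by rw [mul_add, contract_add hp.out.ne_zero]
  map_smul' a f := by
    ext n
    simp [coeff_contract hp.out.ne_zero]

lemma T_coeff (f : R[X]) (n : ℕ) : (T R p f).coeff n = (X * f).coeff (n * p) := by
  show (contract p (X * f)).coeff n = _
  rw [coeff_contract hp.out.ne_zero]

lemma T_mul_pow (f g : R[X]) : T R p (f * g ^ p) = T R p f * g.map (frobenius R p) := by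
  show contract p (X * (f * g ^ p)) = contract p (X * f) * _
  rw [← map_frobenius_expand, Polynomial.map_expand, ← mul_assoc,
    contract_mul_expand hp.out.ne_zero]

lemma T_C_mul (a : R) (f : R[X]) : T R p (C a * f) = C a * T R p f := by
  rw [← smul_eq_C_mul, map_smul, smul_eq_C_mul]

lemma T_derivative (f : R[X]) : T R p (derivative f) = 0 := by
  ext n
  rw [T_coeff]
  rcases n with _ | n
  · simp
  · have hp0 : 0 < p := hp.out.pos
    have h1 : (n + 1) * p = ((n + 1) * p - 1) + 1 := by
      have : 0 < (n + 1) * p := by positivity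
      omega
    rw [h1, coeff_X_mul, coeff_derivative]
    have h2 : ((((n + 1) * p - 1 : ℕ) : R) + 1) = (((n + 1) * p : ℕ) : R) := by
      conv_rhs => rw [h1]
      push_cast
      ring
    rw [h2]
    push_cast
    simp

variable (p) in
/-- the property `C(u^(p-1) u') = (u^σ)'` of the Cartier operator -/
def Good (u : R[X]) : Prop :=
  T R p (u ^ (p - 1) * derivative u) = X * derivative (u.map (frobenius R p))

lemma Good.mul {u v : R[X]} (hu : Good p u) (hv : Good p v) : Good p (u * v) := by
  unfold Good at *
  have hp1 : p - 1 + 1 = p := Nat.succ_pred_eq_of_pos hp.out.pos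
  have h1 : (u * v) ^ (p - 1) * derivative (u * v)
      = (u ^ (p - 1) * derivative u) * v ^ p + (v ^ (p - 1) * derivative v) * u ^ p := by
    have hpw : ∀ x : R[X], x ^ p = x ^ (p - 1) * x := fun x => by rw [← pow_succ, hp1]
    rw [derivative_mul, hpw u, hpw v]
    ring
  rw [h1, map_add, T_mul_pow, T_mul_pow, hu, hv, Polynomial.map_mul, derivative_mul]
  ring

lemma good_lin (a b : R) : Good p (C a * X + C b) := by
  unfold Good
  have hp2 : 2 ≤ p := hp.out.two_le
  have hd : derivative (C a * X + C b) = C a := by simp
  have hd' : derivative ((C a * X + C b).map (frobenius R p)) = C (a ^ p) := by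
    simp only [Polynomial.map_add, Polynomial.map_mul, map_C, map_X, frobenius_def, derivative_add,
      derivative_mul, derivative_C, derivative_X]
    ring
  rw [hd, hd', mul_comm _ (C a), T_C_mul]
  have hdeg : natDegree (C a * X + C b) ≤ 1 := natDegree_linear_le
  have hdeg' : natDegree ((C a * X + C b) ^ (p - 1)) ≤ p - 1 := by
    calc natDegree ((C a * X + C b) ^ (p - 1)) ≤ (p - 1) * natDegree (C a * X + C b) :=
          natDegree_pow_le
      _ ≤ (p - 1) * 1 := Nat.mul_le_mul_left _ hdeg
      _ = p - 1 := by ring
  have h : T R p ((C a * X + C b) ^ (p - 1)) = C (a ^ (p - 1)) * X := by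
    ext n
    rw [T_coeff, coeff_C_mul, coeff_X]
    rcases n with _ | n
    · simp
    · have h1 : (n + 1) * p = ((n + 1) * p - 1) + 1 := by
        have : 0 < (n + 1) * p := by positivity
        omega
      rw [h1, coeff_X_mul]
      rcases n with _ | n
      · have h2 : (0 + 1) * p - 1 = (p - 1) * 1 := by ring_nf
        rw [h2, coeff_pow_of_natDegree_le hdeg]
        simp
      · have h2 : p - 1 < (n + 1 + 1) * p - 1 := by
          have : p * 2 ≤ (n + 1 + 1) * p := by nlinarith
          omega
        rw [coeff_eq_zero_of_natDegree_lt (lt_of_le_of_lt hdeg' h2)]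
        simp
  have hp1 : p - 1 + 1 = p := Nat.succ_pred_eq_of_pos hp.out.pos
  have h3 : a ^ p = a ^ (p - 1) * a := by rw [← pow_succ, hp1]
  rw [h, h3, C_mul]
  ring

lemma T_term {N D : R[X]} (hN : Good p N) (hD : Good p D) (j m : ℕ) (hjm : j + m + 2 = 2 * p) :
    T R p (N ^ j * D ^ m * (derivative N * D - N * derivative D))
      = if j + 1 = p then X * ((derivative N * D - N * derivative D).map (frobenius R p))
        else 0 := by
  have hp1 : p - 1 + 1 = p := Nat.succ_pred_eq_of_pos hp.out.pos
  split_ifs with hj
  · have hj' : j = p - 1 := by omega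
    have hm' : m = p - 1 := by omega
    have h1 : N ^ j * D ^ m * (derivative N * D - N * derivative D)
        = (N ^ (p - 1) * derivative N) * D ^ p - (D ^ (p - 1) * derivative D) * N ^ p := by
      have hpw : ∀ x : R[X], x ^ p = x ^ (p - 1) * x := fun x => by rw [← pow_succ, hp1]
      rw [hj', hm', hpw N, hpw D]
      ring
    rw [h1, map_sub, T_mul_pow, T_mul_pow, hN, hD, Polynomial.map_sub, Polynomial.map_mul,
      Polynomial.map_mul, derivative_map, derivative_map]
    ring
  · have h1 : derivative (N ^ (j + 1) * D ^ (m + 1))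
        = C (((j + 1 : ℕ) : R)) * (N ^ j * D ^ m * (derivative N * D - N * derivative D)) := by
      rw [derivative_mul, derivative_pow, derivative_pow]
      have h2 : ((m + 1 : ℕ) : R) = - ((j + 1 : ℕ) : R) := by
        have h3 : ((j + m + 2 : ℕ) : R) = 0 := by
          rw [hjm]
          push_cast
          simp
        push_cast at h3 ⊢
        linear_combination h3
      rw [h2]
      simp only [Nat.add_sub_cancel, map_neg]
      ring
    have h2 := T_derivative (p := p) (N ^ (j + 1) * D ^ (m + 1))
    rw [h1, T_C_mul] at h2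
    have hu : IsUnit (((j + 1 : ℕ) : R)) := by
      rw [CharP.isUnit_natCast_iff hp.out]
      rintro ⟨c, hc⟩
      have hc2 : c < 2 := by
        by_contra hcc
        push Not at hcc
        have : p * 2 ≤ p * c := Nat.mul_le_mul_left _ hcc
        omega
      interval_cases c <;> omega
    exact (hu.map (C : R →+* R[X])).mul_right_eq_zero.mp h2

/-- the truncated hypergeometric (Hasse) polynomial -/
def H (h : ℕ) (l : R) : R := ∑ i ∈ range (h + 1), ((h.choose i : ℕ) : R) ^ 2 * l ^ i

lemma T_sum {N D : R[X]} (hN : Good p N) (hD : Good p D) (h : ℕ) (hh : 2 * h + 1 = p)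
    (l : R) :
    T R p ((N * (N - D) * (N - C l * D)) ^ h * D ^ h * (derivative N * D - N * derivative D))
      = C ((-1) ^ h * H h l) * (X *
        ((derivative N * D - N * derivative D).map (frobenius R p))) := by
  have e1 : (N - D) ^ h = ∑ i ∈ range (h + 1), N ^ i * (-D) ^ (h - i) * ((h.choose i : ℕ) : R[X]) := by
    rw [sub_eq_add_neg, add_pow]
  have e2 : (N - C l * D) ^ h
      = ∑ j ∈ range (h + 1), (-(C l * D)) ^ j * N ^ (h - j) * ((h.choose j : ℕ) : R[X]) := by
    rw [sub_eq_add_neg, add_comm, add_pow]
  have e3 : (N * (N - D) * (N - C l * D)) ^ h * D ^ h * (derivative N * D - N * derivative D)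
      = ∑ i ∈ range (h + 1), ∑ j ∈ range (h + 1),
        C ((-1) ^ (h - i) * (-l) ^ j * ((h.choose i : ℕ) : R) * ((h.choose j : ℕ) : R))
        * (N ^ (h + i + (h - j)) * D ^ (h + (h - i) + j)
          * (derivative N * D - N * derivative D)) := by
    rw [mul_pow, mul_pow, e1, e2, mul_assoc (N ^ h), Finset.sum_mul_sum, Finset.mul_sum,
      Finset.sum_mul, Finset.sum_mul]
    refine Finset.sum_congr rfl fun i hi => ?_
    rw [Finset.mul_sum, Finset.sum_mul, Finset.sum_mul]
    refine Finset.sum_congr rfl fun j hj => ?_
    have q1 : (-D) ^ (h - i) = (-1) ^ (h - i) * D ^ (h - i) := by rw [← neg_one_mul, mul_pow]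
    have q2 : (-(C l * D)) ^ j = C ((-l) ^ j) * D ^ j := by
      rw [map_pow, map_neg, ← mul_pow]
      ring
    rw [q1, q2]
    simp only [map_mul, map_pow, map_neg, map_one, map_natCast, pow_add]
    ring
  rw [e3, map_sum]
  have e4 : ∀ i ∈ range (h + 1), T R p (∑ j ∈ range (h + 1),
        C ((-1) ^ (h - i) * (-l) ^ j * ((h.choose i : ℕ) : R) * ((h.choose j : ℕ) : R))
        * (N ^ (h + i + (h - j)) * D ^ (h + (h - i) + j)
          * (derivative N * D - N * derivative D)))
      = C ((-1) ^ h * (((h.choose i : ℕ) : R) ^ 2 * l ^ i))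
        * (X * ((derivative N * D - N * derivative D).map (frobenius R p))) := by
    intro i hi
    have hi' : i ≤ h := by
      have := Finset.mem_range.mp hi
      omega
    rw [map_sum]
    have e5 : ∀ j ∈ range (h + 1), T R p (
        C ((-1) ^ (h - i) * (-l) ^ j * ((h.choose i : ℕ) : R) * ((h.choose j : ℕ) : R))
        * (N ^ (h + i + (h - j)) * D ^ (h + (h - i) + j)
          * (derivative N * D - N * derivative D)))
        = if i = j then
          C ((-1) ^ (h - i) * (-l) ^ j * ((h.choose i : ℕ) : R) * ((h.choose j : ℕ) : R))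
          * (X * ((derivative N * D - N * derivative D).map (frobenius R p))) else 0 := by
      intro j hj
      have hj' : j ≤ h := by
        have := Finset.mem_range.mp hj
        omega
      rw [T_C_mul, T_term hN hD _ _ (by omega)]
      by_cases hij : i = j
      · rw [if_pos (by omega), if_pos hij]
      · rw [if_neg (by omega), if_neg hij, mul_zero]
    rw [Finset.sum_congr rfl e5, Finset.sum_ite_eq, if_pos hi]
    congr 2
    have h1 : ((-1 : R)) ^ h = (-1) ^ (h - i) * (-1) ^ i := by
      rw [← pow_add]
      congr 1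
      omega
    rw [h1, neg_pow l i]
    ring
  rw [Finset.sum_congr rfl e4, ← Finset.sum_mul]
  congr 1
  rw [H, Finset.mul_sum, map_sum]

lemma good_X : Good p (X : R[X]) := by
  have := good_lin (R := R) (p := p) 1 0
  simpa using this

lemma good_one : Good p (1 : R[X]) := by
  have := good_lin (R := R) (p := p) 0 1
  simpa using this

lemma T_legendre (h : ℕ) (hh : 2 * h + 1 = p) (l : R) :
    T R p ((X * (X - 1) * (X - C l)) ^ h) = C ((-1) ^ h * H h l) * X := by
  have t2 := T_sum (R := R) (p := p) good_X good_one h hh l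
  simp only [mul_one, derivative_X, derivative_one, mul_zero, sub_zero, one_pow,
    Polynomial.map_one] at t2
  exact t2

/-- `C(2k,k) = (-4)^k C(h,k)` in characteristic `p = 2h+1` -/
lemma central_eq (h : ℕ) (hh : 2 * h + 1 = p) (k : ℕ) (hk : k ≤ h) :
    (((2 * k).choose k : ℕ) : R) = (-4) ^ k * ((h.choose k : ℕ) : R) := by
  induction k with
  | zero => simp
  | succ k ih =>
    have ih' := ih (by omega)
    have h0 : IsUnit ((k + 1 : ℕ) : R) := by
      rw [CharP.isUnit_natCast_iff hp.out]
      intro h0
      have := Nat.le_of_dvd (by omega) h0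
      omega
    have h1 := Nat.succ_mul_centralBinom_succ k
    rw [Nat.centralBinom_eq_two_mul_choose, Nat.centralBinom_eq_two_mul_choose] at h1
    have h1' := congrArg (Nat.cast : ℕ → R) h1
    have h2 := Nat.choose_succ_right_eq h k
    have h2' := congrArg (Nat.cast : ℕ → R) h2
    have h3 : ((h - k : ℕ) : R) = (h : R) - k := by
      rw [Nat.cast_sub (by omega)]
    have h4 : (2 * (h : R) + 1) = 0 := by
      have : ((2 * h + 1 : ℕ) : R) = 0 := by
        rw [hh]
        simp
      push_cast at this
      exact this
    push_cast at h1' h2' h0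
    rw [h3] at h2'
    rw [ih'] at h1'
    apply h0.mul_left_cancel
    rw [h1', pow_succ]
    linear_combination (4 * (-4) ^ k) * h2' + (2 * (-4) ^ k * ((h.choose k : ℕ) : R)) * h4

end Pool.Agent.X314.Cartier
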