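import Mathlib

/-!
# The convolution square of `C(2k,k)^2`

With `t_k = C(2k,k)^2` and `T_k = C(2k,k)^3` we have
`∑_k t_k t_{n-k} = ∑_k T_k C(k,n-k) (-16)^(n-k)` (a form of Clausen's formula). Proof: both
generating functions satisfy `(u (u y')')' = 16 u y' + 8 u' y` with `u = x (1 - 16 x)`.
(The proof follows the one for `C(6k,3k) C(3k,k)` in `Pool/Agent/X318/SixKClausen.lean`.)
-/

set_option autoImplicit false

open Finset

namespace Pool.Agent.X314.Clausen

open PowerSeries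

/-- `t_k = C(2k,k)^2`. -/
def t (k : ℕ) : ℕ := (2 * k).choose k ^ 2

/-- `T_k = C(2k,k)^3`. -/
def T (k : ℕ) : ℕ := (2 * k).choose k ^ 3

lemma cb_rec (k : ℕ) : (k + 1) * (2 * (k + 1)).choose (k + 1) = 2 * (2 * k + 1) * (2 * k).choose k := by
  have h := Nat.succ_mul_centralBinom_succ k
  rwa [Nat.centralBinom_eq_two_mul_choose, Nat.centralBinom_eq_two_mul_choose] at h

lemma t_rec (k : ℕ) : (k + 1) ^ 2 * t (k + 1) = 4 * (2 * k + 1) ^ 2 * t k := by
  unfold t
  rw [← mul_pow, cb_rec]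
  ring

lemma T_rec (k : ℕ) : (k + 1) ^ 3 * T (k + 1) = 8 * (2 * k + 1) ^ 3 * T k := by
  unfold T
  rw [← mul_pow, cb_rec]
  ring

/-- The derivative. -/
noncomputable abbrev D : ℚ⟦X⟧ → ℚ⟦X⟧ := fun f => derivative ℚ f

/-- The argument. -/
noncomputable def u : ℚ⟦X⟧ := X - 16 * (X * X)

lemma D_mul (f g : ℚ⟦X⟧) : D (f * g) = f * D g + g * D f := by
  simp [D, Derivation.leibniz]

lemma D_add (f g : ℚ⟦X⟧) : D (f + g) = D f + D g := by
  simp [D]

lemma D_sub (f g : ℚ⟦X⟧) : D (f - g) = D f - D g := by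
  simp [D]

lemma D_X : D X = 1 := by
  simp [D]

lemma D_ofNat (n : ℕ) : D (n : ℚ⟦X⟧) = 0 := by
  have : (n : ℚ⟦X⟧) = C (n : ℚ) := by simp
  rw [this]
  simp [D]

lemma D_nat_mul (n : ℕ) (f : ℚ⟦X⟧) : D ((n : ℚ⟦X⟧) * f) = (n : ℚ⟦X⟧) * D f := by
  rw [D_mul, D_ofNat]
  ring

lemma D_u : D u = 1 - 32 * X := by
  unfold u
  have h := D_nat_mul 16 (X * X)
  push_cast at h
  rw [D_sub, D_X, h, D_mul, D_X]
  ring

lemma D_D_u : D (1 - 32 * X) = - 32 := by
  have h := D_nat_mul 32 X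
  have h1 := D_ofNat 1
  push_cast at h h1
  rw [D_sub, h, h1, D_X]
  ring

/-- The differential operator. -/
noncomputable def L (y : ℚ⟦X⟧) : ℚ⟦X⟧ :=
  D (u * D (u * D y)) - 16 * (u * D y) - 8 * ((1 - 32 * X) * y)

lemma L_add (y z : ℚ⟦X⟧) : L (y + z) = L y + L z := by
  unfold L
  rw [D_add, mul_add, D_add, mul_add, D_add]
  ring

lemma L_nat_mul (n : ℕ) (y : ℚ⟦X⟧) : L ((n : ℚ⟦X⟧) * y) = n * L y := by
  unfold L
  rw [D_nat_mul, show u * ((n : ℚ⟦X⟧) * D y) = (n : ℚ⟦X⟧) * (u * D y) by ring, D_nat_mul,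
    show u * ((n : ℚ⟦X⟧) * D (u * D y)) = (n : ℚ⟦X⟧) * (u * D (u * D y)) by ring, D_nat_mul]
  ring

lemma L_sub (y z : ℚ⟦X⟧) : L (y - z) = L y - L z := by
  unfold L
  rw [D_sub, mul_sub, D_sub, mul_sub, D_sub]
  ring

/-- The generating function of the `t_k`. -/
noncomputable def F : ℚ⟦X⟧ := mk fun k => (t k : ℚ)

lemma D_F : D (u * D F) = 4 * F := by
  ext n
  have hu : u * D F = X * D F - 16 * (X * (X * D F)) := by
    unfold u
    ring
  have h16 : (16 : ℚ⟦X⟧) = C (16 : ℚ) := by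
    have := (map_natCast (C (R := ℚ)) 16).symm
    exact_mod_cast this
  have h4c : (4 : ℚ⟦X⟧) = C (4 : ℚ) := by
    have := (map_natCast (C (R := ℚ)) 4).symm
    exact_mod_cast this
  have h := t_rec n
  have h' := congrArg (Nat.cast : ℕ → ℚ) h
  push_cast at h'
  rw [hu, h16, h4c]
  simp only [D, coeff_derivative, map_sub, coeff_C_mul, coeff_succ_X_mul, F, coeff_mk]
  cases n with
  | zero =>
    simp only [coeff_zero_X_mul]
    push_cast at h' ⊢
    linarith
  | succ n =>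
    rw [coeff_succ_X_mul, coeff_derivative, coeff_mk]
    push_cast at h' ⊢
    linear_combination h'

/-- The square of the generating function satisfies the equation. -/
lemma L_F_sq : L (F * F) = 0 := by
  unfold L
  have h1 : u * D (F * F) = 2 * (F * (u * D F)) := by
    rw [D_mul]
    ring
  have h2 : u * D (u * D (F * F)) = 2 * ((u * D F) * (u * D F)) + 8 * (u * (F * F)) := by
    rw [h1]
    have := D_nat_mul 2 (F * (u * D F))
    push_cast at this
    rw [this, D_mul F, D_F]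
    ring
  have h3 : D (2 * ((u * D F) * (u * D F)) + 8 * (u * (F * F))) =
      32 * (F * (u * D F)) + 8 * ((1 - 32 * X) * (F * F)) := by
    have e1 := D_nat_mul 2 ((u * D F) * (u * D F))
    have e2 := D_nat_mul 8 (u * (F * F))
    push_cast at e1 e2
    rw [D_add, e1, e2, D_mul (u * D F) (u * D F), D_F, D_mul u, D_mul F F, D_u]
    ring
  rw [h2, h3, h1]
  ring

lemma D_pow (k : ℕ) : D (u ^ (k + 1)) = ((k + 1 : ℕ) : ℚ⟦X⟧) * (u ^ k * (1 - 32 * X)) := by
  induction k with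
  | zero =>
    rw [zero_add, pow_one, D_u]
    simp
  | succ k ih =>
    rw [pow_succ, D_mul, ih, D_u]
    push_cast
    ring

lemma du_sq : (1 - 32 * X : ℚ⟦X⟧) * (1 - 32 * X) = 1 - 64 * u := by
  unfold u
  ring

/-- The operator applied to a power of `u`. -/
lemma L_pow (k : ℕ) : L (u ^ (k + 1)) = (1 - 32 * X) * ((((k + 1) ^ 3 : ℕ) : ℚ⟦X⟧) * u ^ k -
    ((8 * (2 * (k + 1) + 1) ^ 3 : ℕ) : ℚ⟦X⟧) *
      u ^ (k + 1)) := by
  unfold L
  have h1 : u * D (u ^ (k + 1)) = ((k + 1 : ℕ) : ℚ⟦X⟧) * (u ^ (k + 1) * (1 - 32 * X)) := by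
    rw [D_pow]
    ring
  have h2 : u * D (u * D (u ^ (k + 1))) =
      (((k + 1) ^ 2 : ℕ) : ℚ⟦X⟧) * u ^ (k + 1) -
        ((64 * (k + 1) ^ 2 + 32 * (k + 1) : ℕ) : ℚ⟦X⟧) * u ^ (k + 1 + 1) := by
    rw [h1, D_nat_mul, D_mul, D_pow, D_D_u]
    have h3 := du_sq
    push_cast
    linear_combination ((k : ℚ⟦X⟧) + 1) ^ 2 * u ^ (k + 1) * h3
  rw [h2, h1, D_sub, D_nat_mul, D_nat_mul, D_pow, D_pow]
  push_cast
  ring

lemma L_one : L 1 = - 8 * (1 - 32 * X) := by
  have h := D_ofNat 1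
  push_cast at h
  unfold L
  rw [h, mul_zero]
  have h0 : D (0 : ℚ⟦X⟧) = 0 := by simp [D]
  rw [h0, mul_zero, h0]
  ring

/-- The partial sums of the second generating function. -/
noncomputable def P (N : ℕ) : ℚ⟦X⟧ := ∑ k ∈ range (N + 1), (T k : ℚ⟦X⟧) * u ^ k

lemma L_P (N : ℕ) : L (P N) = - ((1 - 32 * X) *
    (((8 * (2 * N + 1) ^ 3 * T N : ℕ) : ℚ⟦X⟧) * u ^ N)) := by
  induction N with
  | zero =>
    have hT : T 0 = 1 := by simp [T]
    rw [P, zero_add, range_one, sum_singleton, hT]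
    simp only [Nat.cast_one, pow_zero, mul_one, L_one]
    push_cast
    ring
  | succ N ih =>
    have h := congrArg (Nat.cast : ℕ → ℚ⟦X⟧) (T_rec N)
    rw [P, sum_range_succ, L_add, ← P, ih, L_nat_mul, L_pow]
    push_cast at h ⊢
    linear_combination (1 - 32 * X) * u ^ N * h

lemma coeff_L_succ (y : ℚ⟦X⟧) (m : ℕ) : coeff (m + 1) (L y) =
    ((m : ℚ) + 2) ^ 3 * coeff (m + 2) y -
      (2 * m + 3) * (16 * (m + 1) * (m + 2) + 8) * coeff (m + 1) y +
      256 * (m + 1) ^ 3 * coeff m y := by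
  have h1 : ∀ f : ℚ⟦X⟧, u * f = X * f - 16 * (X * (X * f)) := by
    intro f
    unfold u
    ring
  have hc : ∀ (a : ℕ) (f : ℚ⟦X⟧) (i : ℕ), coeff i ((a : ℚ⟦X⟧) * f) = (a : ℚ) * coeff i f := by
    intro a f i
    have : (a : ℚ⟦X⟧) = C (a : ℚ) := by simp
    rw [this, coeff_C_mul]
  have h16 := hc 16
  have h16b := hc 16
  have h8 := hc 8
  have h32 := hc 32
  push_cast at h16 h16b h8 h32
  have hL : L y = D (u * D (u * D y)) - 16 * (u * D y) - 8 * (y - 32 * (X * y)) := by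
    unfold L
    ring
  have hu2 : ∀ (f : ℚ⟦X⟧) (i : ℕ), coeff (i + 2) (u * f) = coeff (i + 1) f - 16 * coeff i f := by
    intro f i
    rw [h1, map_sub, h16, coeff_succ_X_mul, coeff_succ_X_mul, coeff_succ_X_mul]
  have hu1 : ∀ (f : ℚ⟦X⟧), coeff 1 (u * f) = coeff 0 f := by
    intro f
    rw [h1, map_sub, h16, show (1 : ℕ) = 0 + 1 from rfl, coeff_succ_X_mul, coeff_succ_X_mul,
      coeff_zero_X_mul]
    ring
  have hD : ∀ (f : ℚ⟦X⟧) (i : ℕ), coeff i (D f) = coeff (i + 1) f * (i + 1) :=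
    fun f i => coeff_derivative f i
  rw [hL, map_sub, map_sub, hD, h16b, h8, map_sub, h32, coeff_succ_X_mul, hu2, hD, hD]
  cases m with
  | zero =>
    rw [hu1, hD, show 0 + 1 + 1 = 0 + 2 from rfl, hu2, hD, hD]
    push_cast
    ring
  | succ m =>
    rw [hu2, hD, hD, hu2, hD, hD]
    push_cast
    ring

lemma coeff_L_zero (y : ℚ⟦X⟧) : coeff 0 (L y) = coeff 1 y - 8 * coeff 0 y := by
  have h1 : ∀ f : ℚ⟦X⟧, u * f = X * f - 16 * (X * (X * f)) := by
    intro f
    unfold u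
    ring
  have hc : ∀ (a : ℕ) (f : ℚ⟦X⟧) (i : ℕ), coeff i ((a : ℚ⟦X⟧) * f) = (a : ℚ) * coeff i f := by
    intro a f i
    have : (a : ℚ⟦X⟧) = C (a : ℚ) := by simp
    rw [this, coeff_C_mul]
  have h16 := hc 16
  have h16b := hc 16
  have h8 := hc 8
  have h32 := hc 32
  push_cast at h16 h16b h8 h32
  have hL : L y = D (u * D (u * D y)) - 16 * (u * D y) - 8 * (y - 32 * (X * y)) := by
    unfold L
    ring
  have hu1 : ∀ (f : ℚ⟦X⟧), coeff 1 (u * f) = coeff 0 f := by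
    intro f
    rw [h1, map_sub, h16, show (1 : ℕ) = 0 + 1 from rfl, coeff_succ_X_mul, coeff_succ_X_mul,
      coeff_zero_X_mul]
    ring
  have hu0 : ∀ (f : ℚ⟦X⟧), coeff 0 (u * f) = 0 := by
    intro f
    rw [h1, map_sub, h16, coeff_zero_X_mul, coeff_zero_X_mul]
    ring
  have hD : ∀ (f : ℚ⟦X⟧) (i : ℕ), coeff i (D f) = coeff (i + 1) f * (i + 1) :=
    fun f i => coeff_derivative f i
  rw [hL, map_sub, map_sub, hD, h16b, h8, map_sub, h32, coeff_zero_X_mul, zero_add, hu1, hu0, hD,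
    zero_add, hu1, hD]
  push_cast
  ring

/-- Uniqueness. -/
lemma unique (y : ℚ⟦X⟧) (N : ℕ) (h0 : coeff 0 y = 0) (hL : ∀ m < N, coeff m (L y) = 0) :
    ∀ n ≤ N, coeff n y = 0 := by
  intro n
  induction n using Nat.strong_induction_on with
  | _ n ih =>
    intro hn
    match n with
    | 0 => exact h0
    | 1 =>
      have h := hL 0 (by omega)
      rw [coeff_L_zero, h0] at h
      linarith
    | m + 2 =>
      have h := hL (m + 1) (by omega)
      rw [coeff_L_succ, ih (m + 1) (by omega) (by omega), ih m (by omega) (by omega), mul_zero,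
        mul_zero, sub_zero, add_zero] at h
      have h2 : ((m : ℚ) + 2) ^ 3 ≠ 0 := by positivity
      exact (mul_eq_zero.1 h).resolve_left h2

lemma coeff_u_pow (k n : ℕ) : coeff n (u ^ k) =
    if k ≤ n then (k.choose (n - k) : ℚ) * (-16) ^ (n - k) else 0 := by
  have h1 : u = X * (1 - 16 * X) := by
    unfold u
    ring
  have hc : ∀ (a : ℚ) (f : ℚ⟦X⟧) (i : ℕ), coeff i (C a * f) = a * coeff i f :=
    fun a f i => coeff_C_mul i f a
  have h16 : (16 : ℚ⟦X⟧) = C (16 : ℚ) := by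
    have := (map_natCast (C (R := ℚ)) 16).symm
    exact_mod_cast this
  have h2 : (1 - 16 * X : ℚ⟦X⟧) ^ k = ∑ i ∈ range (k + 1),
      C (((-16) ^ i * (k.choose i : ℚ))) * X ^ i := by
    rw [show (1 - 16 * X : ℚ⟦X⟧) = C (-16) * X + 1 by
      rw [h16, map_neg]
      ring, add_pow]
    refine sum_congr rfl fun i _ => ?_
    rw [one_pow, mul_one, mul_pow, map_mul, map_pow]
    have : ((k.choose i : ℕ) : ℚ⟦X⟧) = C ((k.choose i : ℕ) : ℚ) := by simp
    rw [this]
    ring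
  rw [h1, mul_pow, coeff_X_pow_mul']
  split_ifs with h
  · rw [h2, map_sum]
    simp_rw [hc, coeff_X_pow]
    by_cases h3 : n - k ≤ k
    · rw [sum_eq_single (n - k)]
      · rw [if_pos rfl]
        ring
      · intro i _ hi
        rw [if_neg (Ne.symm hi), mul_zero]
      · intro hi
        exact absurd (mem_range.2 (by omega)) hi
    · rw [Nat.choose_eq_zero_of_lt (by omega), sum_eq_zero]
      · simp
      · intro i hi
        have := mem_range.1 hi
        rw [if_neg (by omega), mul_zero]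
  · rfl

/-- **Clausen's formula.** -/
theorem clausen (n : ℕ) : ((∑ k ∈ range (n + 1), t k * t (n - k) : ℕ) : ℤ) =
    ∑ k ∈ range (n + 1), (T k : ℤ) * (k.choose (n - k) * (-16) ^ (n - k)) := by
  have hT0 : T 0 = 1 := by simp [T]
  have ht0 : t 0 = 1 := by simp [t]
  have h1 : coeff n (F * F - P n) = 0 := by
    refine unique _ n ?_ ?_ n le_rfl
    · rw [map_sub, P, map_sum, coeff_mul]
      have hc : ∀ k ∈ range (n + 1), coeff 0 ((T k : ℚ⟦X⟧) * u ^ k) = if k = 0 then 1 else 0 := by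
        intro k _
        have : (T k : ℚ⟦X⟧) = C (T k : ℚ) := by simp
        rw [this, coeff_C_mul, coeff_u_pow]
        split_ifs with h2 h3 h3
        · subst h3
          rw [hT0]
          simp
        · omega
        · omega
        · simp
      rw [sum_congr rfl hc, sum_ite_eq' (range (n + 1)) 0, if_pos (mem_range.2 (Nat.succ_pos n))]
      simp [F, ht0]
    · intro m hm
      rw [L_sub, L_F_sq, L_P, zero_sub, neg_neg]
      have h2 : ∀ f : ℚ⟦X⟧, coeff m (X ^ n * f) = 0 := by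
        intro f
        rw [coeff_X_pow_mul', if_neg (by omega)]
      have h3 : (1 - 32 * X : ℚ⟦X⟧) * (((8 * (2 * n + 1) ^ 3 * T n : ℕ) :
          ℚ⟦X⟧) * u ^ n) = X ^ n * ((1 - 32 * X) * (((8 * (2 * n + 1) ^ 3 * T n : ℕ) : ℚ⟦X⟧) * (1 - 16 * X) ^ n)) := by
        have h4 : u = X * (1 - 16 * X) := by
          unfold u
          ring
        rw [h4, mul_pow]
        ring
      rw [h3, h2]
  rw [map_sub, sub_eq_zero, P, map_sum] at h1
  have h2 : coeff n (F * F) = ((∑ k ∈ range (n + 1), t k * t (n - k) : ℕ) : ℚ) := by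
    rw [coeff_mul, Nat.sum_antidiagonal_eq_sum_range_succ_mk]
    push_cast
    refine sum_congr rfl fun k _ => ?_
    rw [F, coeff_mk, coeff_mk]
  have h3 : ∀ k ∈ range (n + 1), coeff n ((T k : ℚ⟦X⟧) * u ^ k) =
      (T k : ℚ) * (k.choose (n - k) * (-16) ^ (n - k)) := by
    intro k hk
    have h4 : (T k : ℚ⟦X⟧) = C (T k : ℚ) := by simp
    rw [h4, coeff_C_mul, coeff_u_pow, if_pos (Nat.lt_succ_iff.1 (mem_range.1 hk))]
  rw [h2, sum_congr rfl h3] at h1
  exact_mod_cast h1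

end Pool.Agent.X314.Clausen
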