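import Mathlib

/-!
# Helper lemmas for MP_c8d2d2_an (three types of charged balls on a circle)
-/

set_option autoImplicit false
set_option linter.unusedSectionVars false

open Finset

namespace Pool.Agent.X314.Balls

/-- the algebraic heart -/
lemma core (wa wb wl ua ub ul Ta Tb Tl Ma Mb Ml : ℝ) (hwa : 0 ≤ wa) (hwb : 0 ≤ wb)
    (hwl : 0 ≤ wl) (hw : wa + wb + wl = 1) (hu : ua + ub + ul = 0)
    (h1 : ua * Ta + ub * Tb + ul * Tl = 0)
    (h2 : ua * (3 * Ma + ua ^ 2 / 4) + ub * (3 * Mb + ub ^ 2 / 4) + ul * (3 * Ml + ul ^ 2 / 4) = 0)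
    (hVa : Ta ^ 2 ≤ Ma) (hVb : Tb ^ 2 ≤ Mb) (hVl : Tl ^ 2 ≤ Ml)
    (hP : ul ^ 2 / 4 ≤ (√(Ma - Ta ^ 2) + √(Mb - Tb ^ 2)) ^ 2 + (Ta - Tb) ^ 2)
    (hul : ul ≠ 0) (hx : (wb * ul - wl * ub) * (wl * ua - wa * ul) ≤ 0) :
    (wa * wb * ul ^ 2 + wb * wl * ua ^ 2 + wl * wa * ub ^ 2) / 4
      ≤ wa * Ma + wb * Mb + wl * Ml - (wa * Ta + wb * Tb + wl * Tl) ^ 2 := by
  obtain ⟨c, hc⟩ : ∃ c, Ta - Tb = c * ul := ⟨(Ta - Tb) / ul, by field_simp⟩
  have hd : Tb - Tl = c * ua := by
    apply mul_left_cancel₀ hul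
    have : ua * (Ta - Tl) + ub * (Tb - Tl) = 0 := by
      linear_combination h1 - Tl * hu
    linear_combination (-1) * this + ua * hc + (Tb - Tl) * hu
  have he : Tl - Ta = c * ub := by
    linear_combination (-1) * hc - hd - c * hu
  set Va := Ma - Ta ^ 2 with hVa'
  set Vb := Mb - Tb ^ 2 with hVb'
  set Vl := Ml - Tl ^ 2 with hVl'
  have hMa : Ma = Va + Ta ^ 2 := by rw [hVa']; ring
  have hMb : Mb = Vb + Tb ^ 2 := by rw [hVb']; ring
  have hMl : Ml = Vl + Tl ^ 2 := by rw [hVl']; ring
  have hVa0 : 0 ≤ Va := by rw [hVa']; linarith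
  have hVb0 : 0 ≤ Vb := by rw [hVb']; linarith
  have hVl0 : 0 ≤ Vl := by rw [hVl']; linarith
  -- variance of the means
  have hvar : wa * Ma + wb * Mb + wl * Ml - (wa * Ta + wb * Tb + wl * Tl) ^ 2
      = wa * Va + wb * Vb + wl * Vl
        + c ^ 2 * (wa * wb * ul ^ 2 + wb * wl * ua ^ 2 + wl * wa * ub ^ 2) := by
    have e1 : wl = 1 - wa - wb := by linarith
    have e2 : Ta = Tl - c * ub := by linarith
    have e3 : Tb = Tl + c * ua := by linarith
    have e4 : ul = -ua - ub := by linarith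
    rw [hMa, hMb, hMl, e1, e2, e3, e4]
    ring
  -- the cubic identity
  have hcub : ua * Va + ub * Vb + ul * Vl = (c ^ 2 - 1 / 4) * (ua * ub * ul) := by
    have e2 : Ta = Tl - c * ub := by linarith
    have e3 : Tb = Tl + c * ua := by linarith
    have e4 : ul = -ua - ub := by linarith
    rw [hMa, hMb, hMl, e2, e3, e4] at h2
    rw [e4]
    linear_combination (1 / 3) * h2
  rw [hvar]
  set K := 1 / 4 - c ^ 2 with hK
  have hgoal : K * (wa * wb * ul ^ 2 + wb * wl * ua ^ 2 + wl * wa * ub ^ 2)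
      ≤ wa * Va + wb * Vb + wl * Vl := by
    rcases le_or_gt K 0 with hK0 | hK0
    · have : 0 ≤ wa * wb * ul ^ 2 + wb * wl * ua ^ 2 + wl * wa * ub ^ 2 := by positivity
      have h3 := mul_nonpos_of_nonpos_of_nonneg hK0 this
      have h4 : 0 ≤ wa * Va + wb * Vb + wl * Vl := by positivity
      linarith
    · -- elimination of `Vl`
      set A := wa - wl * ua / ul with hA
      set B := wb - wl * ub / ul with hB
      have hAul : A * ul = wa * ul - wl * ua := by
        rw [hA]
        field_simp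
      have hBul : B * ul = wb * ul - wl * ub := by
        rw [hB]
        field_simp
      have hAB : A + B = 1 := by
        apply mul_right_cancel₀ hul
        linear_combination hAul + hBul - wl * hu + ul * hw
      have hABn : 0 ≤ A * B := by
        have h3 : 0 ≤ (A * ul) * (B * ul) := by
          rw [hAul, hBul]
          have h10 : (wa * ul - wl * ua) * (wb * ul - wl * ub)
              = -((wb * ul - wl * ub) * (wl * ua - wa * ul)) := by ring
          rw [h10]
          linarith
        have h4 : (A * ul) * (B * ul) = (A * B) * ul ^ 2 := by ring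
        rw [h4] at h3
        have h5 : 0 < ul ^ 2 := by positivity
        exact nonneg_of_mul_nonneg_left h3 h5
      clear_value A B Va Vb Vl
      have hid : (wa * Va + wb * Vb + wl * Vl)
          - K * (wa * wb * ul ^ 2 + wb * wl * ua ^ 2 + wl * wa * ub ^ 2)
          = A * Va + B * Vb - K * (A * B) * ul ^ 2 := by
        have h3 : K * (A * B) * ul ^ 2 = K * ((A * ul) * (B * ul)) := by ring
        apply mul_right_cancel₀ hul
        have h4 : (A * Va + B * Vb - K * (A * B) * ul ^ 2) * ul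
            = (A * ul) * Va + (B * ul) * Vb - K * ((A * ul) * (B * ul)) * ul := by ring
        rw [h4, hAul, hBul]
        have e1 : wl = 1 - wa - wb := by linarith
        have e4 : ul = -ua - ub := by linarith
        have h5 : ul * Vl = -K * (ua * ub * ul) - ua * Va - ub * Vb := by
          rw [hK]
          linear_combination hcub
        have h6 : ((wa * Va + wb * Vb + wl * Vl)
          - K * (wa * wb * ul ^ 2 + wb * wl * ua ^ 2 + wl * wa * ub ^ 2)) * ul
          = (wa * Va + wb * Vb) * ul + wl * (ul * Vl)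
          - K * (wa * wb * ul ^ 2 + wb * wl * ua ^ 2 + wl * wa * ub ^ 2) * ul := by ring
        rw [h6, h5, e1, e4]
        ring
      have hsq : (√Va + √Vb) ^ 2 ≥ K * ul ^ 2 := by
        rw [hc] at hP
        have h11 : K * ul ^ 2 = ul ^ 2 / 4 - (c * ul) ^ 2 := by
          rw [hK]
          ring
        rw [h11]
        linarith
      have hsa : √Va ^ 2 = Va := Real.sq_sqrt hVa0
      have hsb : √Vb ^ 2 = Vb := Real.sq_sqrt hVb0
      have h7 : K * (A * B) * ul ^ 2 ≤ (A * B) * (√Va + √Vb) ^ 2 := by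
        have := mul_le_mul_of_nonneg_left hsq hABn
        linarith
      have h8 : A * Va + B * Vb - (A * B) * (√Va + √Vb) ^ 2 = (A * √Va - B * √Vb) ^ 2 := by
        have e5 : B = 1 - A := by linarith
        rw [e5]
        linear_combination (-A) * hsa - (1 - A) * hsb
          + 0 * hAB
      have h9 : 0 ≤ (A * √Va - B * √Vb) ^ 2 := sq_nonneg _
      linarith
  rw [hK] at hgoal
  linarith

/-- a coupling of two samples with `|X - Y|² ≥ q` -/
lemma couple {α : Type*} [Fintype α] (n : ℕ) (hn : 0 < n) (hcard : Fintype.card α = n)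
    (X Y : α → ℝ) (q : ℝ) (h : ∀ x, q ≤ (X x - Y x) ^ 2) :
    q ≤ (√((∑ x, X x ^ 2) / n - ((∑ x, X x) / n) ^ 2)
        + √((∑ x, Y x ^ 2) / n - ((∑ x, Y x) / n) ^ 2)) ^ 2
      + ((∑ x, X x) / n - (∑ x, Y x) / n) ^ 2 := by
  have hn0 : (0 : ℝ) < n := by exact_mod_cast hn
  set TX := (∑ x, X x) / n with hTX
  set TY := (∑ x, Y x) / n with hTY
  set MX := (∑ x, X x ^ 2) / n with hMX
  set MY := (∑ x, Y x ^ 2) / n with hMY
  have sX : ∑ x, X x = n * TX := by rw [hTX]; field_simp
  have sY : ∑ x, Y x = n * TY := by rw [hTY]; field_simp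
  have qX : ∑ x, X x ^ 2 = n * MX := by rw [hMX]; field_simp
  have qY : ∑ x, Y x ^ 2 = n * MY := by rw [hMY]; field_simp
  have hc : ∑ _x : α, (1 : ℝ) = n := by
    rw [Finset.sum_const, Finset.card_univ, hcard, nsmul_eq_mul, mul_one]
  have vX : ∑ x, (X x - TX) ^ 2 = n * (MX - TX ^ 2) := by
    have e : ∀ x ∈ (Finset.univ : Finset α), (X x - TX) ^ 2 = X x ^ 2 - 2 * TX * X x + TX ^ 2 * 1 := by
      intro x _
      ring
    rw [Finset.sum_congr rfl e, Finset.sum_add_distrib, Finset.sum_sub_distrib, ← Finset.mul_sum,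
      ← Finset.mul_sum, hc, sX, qX]
    ring
  have vY : ∑ x, (Y x - TY) ^ 2 = n * (MY - TY ^ 2) := by
    have e : ∀ x ∈ (Finset.univ : Finset α), (Y x - TY) ^ 2 = Y x ^ 2 - 2 * TY * Y x + TY ^ 2 * 1 := by
      intro x _
      ring
    rw [Finset.sum_congr rfl e, Finset.sum_add_distrib, Finset.sum_sub_distrib, ← Finset.mul_sum,
      ← Finset.mul_sum, hc, sY, qY]
    ring
  have pX : 0 ≤ MX - TX ^ 2 := by
    have : 0 ≤ n * (MX - TX ^ 2) := by
      rw [← vX]
      exact Finset.sum_nonneg fun x _ => sq_nonneg _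
    exact nonneg_of_mul_nonneg_right this hn0
  have pY : 0 ≤ MY - TY ^ 2 := by
    have : 0 ≤ n * (MY - TY ^ 2) := by
      rw [← vY]
      exact Finset.sum_nonneg fun x _ => sq_nonneg _
    exact nonneg_of_mul_nonneg_right this hn0
  have hcs : -(∑ x, (X x - TX) * (Y x - TY)) ≤ n * (√(MX - TX ^ 2) * √(MY - TY ^ 2)) := by
    have h1 := Finset.sum_mul_sq_le_sq_mul_sq Finset.univ (fun x => X x - TX) (fun x => Y x - TY)
    rw [vX, vY] at h1
    have h2 : (n * (√(MX - TX ^ 2) * √(MY - TY ^ 2))) ^ 2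
        = n * (MX - TX ^ 2) * (n * (MY - TY ^ 2)) := by
      rw [mul_pow, mul_pow, Real.sq_sqrt pX, Real.sq_sqrt pY]
      ring
    rw [← h2] at h1
    have h3 : 0 ≤ n * (√(MX - TX ^ 2) * √(MY - TY ^ 2)) := by positivity
    exact neg_le_of_abs_le (abs_le_of_sq_le_sq h1 h3) |> fun h => by linarith
  have htot : n * q ≤ n * (MX - TX ^ 2) + n * (MY - TY ^ 2)
      - 2 * (∑ x, (X x - TX) * (Y x - TY)) + n * (TX - TY) ^ 2 := by
    have e1 : ∑ _x : α, q ≤ ∑ x, (X x - Y x) ^ 2 := Finset.sum_le_sum fun x _ => h x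
    have e2 : ∑ _x : α, q = n * q := by
      rw [Finset.sum_const, Finset.card_univ, hcard, nsmul_eq_mul]
    have e3 : ∑ x, (X x - Y x) ^ 2 = n * (MX - TX ^ 2) + n * (MY - TY ^ 2)
      - 2 * (∑ x, (X x - TX) * (Y x - TY)) + n * (TX - TY) ^ 2 := by
      have e4 : ∀ x ∈ (Finset.univ : Finset α), (X x - Y x) ^ 2 = (X x - TX) ^ 2 + (Y x - TY) ^ 2
          - 2 * ((X x - TX) * (Y x - TY)) + (2 * (TX - TY) * X x - 2 * (TX - TY) * Y x
          - (TX - TY) ^ 2 * 1) := by
        intro x _
        ring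
      rw [Finset.sum_congr rfl e4, Finset.sum_add_distrib, Finset.sum_sub_distrib,
        Finset.sum_add_distrib, Finset.sum_sub_distrib, Finset.sum_sub_distrib, ← Finset.mul_sum,
        ← Finset.mul_sum, ← Finset.mul_sum, ← Finset.mul_sum, hc, vX, vY, sX, sY]
      ring
    rw [← e2, ← e3]
    exact e1
  have hfin : n * q ≤ n * ((√(MX - TX ^ 2) + √(MY - TY ^ 2)) ^ 2 + (TX - TY) ^ 2) := by
    have e5 : (√(MX - TX ^ 2) + √(MY - TY ^ 2)) ^ 2
        = (MX - TX ^ 2) + (MY - TY ^ 2) + 2 * (√(MX - TX ^ 2) * √(MY - TY ^ 2)) := by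
      rw [add_sq, Real.sq_sqrt pX, Real.sq_sqrt pY]
      ring
    rw [e5]
    linarith
  exact le_of_mul_le_mul_left hfin hn0

section walk

variable (b : ℕ → Fin 3) (u : Fin 3 → ℝ)

/-- partial sums -/
noncomputable def S (k : ℕ) : ℝ := ∑ j ∈ range k, u (b j)

/-- midpoints -/
noncomputable def tm (k : ℕ) : ℝ := S b u k + u (b k) / 2

/-- the number of steps of type `a` among the first `k` steps -/
def cnt (a : Fin 3) (k : ℕ) : ℤ := (((range k).filter (fun j => b j = a)).card : ℤ)

lemma S_succ (k : ℕ) : S b u (k + 1) = S b u k + u (b k) := by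
  rw [S, Finset.sum_range_succ]
  rfl

lemma cnt_succ (a : Fin 3) (k : ℕ) : cnt b a (k + 1) = cnt b a k + if b k = a then 1 else 0 := by
  unfold cnt
  rw [Finset.range_add_one, Finset.filter_insert]
  by_cases h : b k = a
  · rw [if_pos h, if_pos h, Finset.card_insert_of_notMem (by simp)]
    push_cast
    ring
  · rw [if_neg h, if_neg h]
    simp

lemma cnt_zero (a : Fin 3) : cnt b a 0 = 0 := by
  simp [cnt]

lemma S_eq (k : ℕ) : S b u k = ∑ a, u a * (cnt b a k : ℝ) := by
  induction k with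
  | zero => simp [S, cnt_zero]
  | succ k ih =>
    rw [S_succ, ih]
    have : ∀ a ∈ (Finset.univ : Finset (Fin 3)), u a * (cnt b a (k + 1) : ℝ)
        = u a * (cnt b a k : ℝ) + if b k = a then u a else 0 := by
      intro a _
      rw [cnt_succ]
      by_cases h : b k = a
      · rw [if_pos h, if_pos h]
        push_cast
        ring
      · rw [if_neg h, if_neg h]
        push_cast
        ring
    rw [Finset.sum_congr rfl this, Finset.sum_add_distrib, Finset.sum_ite_eq]
    simp

lemma group (N : ℕ) (F : Fin 3 → ℝ) (g : ℕ → ℝ) :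
    ∑ k ∈ range N, F (b k) * g k = ∑ a, F a * ∑ k ∈ (range N).filter (fun k => b k = a), g k := by
  rw [← Finset.sum_fiberwise (range N) b]
  refine Finset.sum_congr rfl fun a _ => ?_
  rw [Finset.mul_sum]
  refine Finset.sum_congr rfl fun k hk => ?_
  rw [Finset.mem_filter] at hk
  rw [hk.2]

lemma id_one (N : ℕ) (hN : S b u N = 0) : ∑ k ∈ range N, u (b k) * tm b u k = 0 := by
  have h := Finset.sum_range_sub (fun k => S b u k ^ 2) N
  have e : ∀ k ∈ range N, S b u (k + 1) ^ 2 - S b u k ^ 2 = 2 * (u (b k) * tm b u k) := by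
    intro k _
    rw [S_succ, tm]
    ring
  rw [Finset.sum_congr rfl e, ← Finset.mul_sum, hN] at h
  have h0 : S b u 0 = 0 := by simp [S]
  rw [h0] at h
  linarith

lemma id_two (N : ℕ) (hN : S b u N = 0) :
    ∑ k ∈ range N, u (b k) * (3 * tm b u k ^ 2 + u (b k) ^ 2 / 4) = 0 := by
  have h := Finset.sum_range_sub (fun k => S b u k ^ 3) N
  have e : ∀ k ∈ range N, S b u (k + 1) ^ 3 - S b u k ^ 3
      = u (b k) * (3 * tm b u k ^ 2 + u (b k) ^ 2 / 4) := by
    intro k _
    rw [S_succ, tm]
    ring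
  rw [Finset.sum_congr rfl e, hN] at h
  have h0 : S b u 0 = 0 := by simp [S]
  rw [h0] at h
  linarith

/-- pairing of the steps of types `a` and `c` on the same level -/
lemma pairing (N n : ℕ) (hcnt : ∀ x, cnt b x N = n) (a c l : Fin 3) (hac : a ≠ c)
    (hu : u a + u c + u l = 0) (hsum : ∀ F : Fin 3 → ℝ, ∑ x, F x = F a + F c + F l) :
    ∃ e : {k // k ∈ (range N).filter (fun k => b k = a)}
        ≃ {k // k ∈ (range N).filter (fun k => b k = c)},
      ∀ k, u l ^ 2 / 4 ≤ (tm b u k.1 - tm b u (e k).1) ^ 2 := by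
  set d : ℕ → ℤ := fun k => cnt b a k - cnt b c k with hd
  have hd1 : ∀ k, d (k + 1) = d k + (if b k = a then 1 else 0) - (if b k = c then 1 else 0) := by
    intro k
    simp only [hd, cnt_succ]
    ring
  have hlevel : ∀ L : ℤ, Fintype.card {x : {k // k ∈ (range N).filter (fun k => b k = a)} // d x.1 = L}
      = Fintype.card {y : {k // k ∈ (range N).filter (fun k => b k = c)} // d (y.1 + 1) = L} := by
    intro L
    have h1 : (Fintype.card {x : {k // k ∈ (range N).filter (fun k => b k = a)} // d x.1 = L} : ℤ)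
        = ∑ k ∈ range N, if b k = a ∧ d k = L then 1 else 0 := by
      rw [Fintype.card_subtype, Finset.card_filter]
      push_cast
      rw [Finset.sum_coe_sort ((range N).filter (fun k => b k = a))
        (fun k => if d k = L then (1 : ℤ) else 0), Finset.sum_filter]
      refine Finset.sum_congr rfl fun k _ => ?_
      by_cases h : b k = a
      · simp [h]
      · simp [h]
    have h2 : (Fintype.card {y : {k // k ∈ (range N).filter (fun k => b k = c)}
        // d (y.1 + 1) = L} : ℤ)
        = ∑ k ∈ range N, if b k = c ∧ d (k + 1) = L then 1 else 0 := by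
      rw [Fintype.card_subtype, Finset.card_filter]
      push_cast
      rw [Finset.sum_coe_sort ((range N).filter (fun k => b k = c))
        (fun k => if d (k + 1) = L then (1 : ℤ) else 0), Finset.sum_filter]
      refine Finset.sum_congr rfl fun k _ => ?_
      by_cases h : b k = c
      · simp [h]
      · simp [h]
    have h3 := Finset.sum_range_sub (fun k => if L < d k then (1 : ℤ) else 0) N
    have h4 : ∀ k ∈ range N, (if L < d (k + 1) then (1 : ℤ) else 0) - (if L < d k then (1 : ℤ) else 0)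
        = (if b k = a ∧ d k = L then 1 else 0) - (if b k = c ∧ d (k + 1) = L then 1 else 0) := by
      intro k _
      have h5 := hd1 k
      by_cases ha : b k = a
      · have hc' : b k ≠ c := fun h => hac (ha.symm.trans h)
        rw [if_pos ha, if_neg hc'] at h5
        simp only [ha, hac, true_and, false_and, if_false]
        split_ifs <;> omega
      · by_cases hc' : b k = c
        · rw [if_neg ha, if_pos hc'] at h5
          have hca : ¬ c = a := fun h => hac h.symm
          simp only [hc', hca, true_and, false_and, if_false]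
          split_ifs <;> omega
        · rw [if_neg ha, if_neg hc'] at h5
          simp only [ha, hc', false_and, if_false]
          split_ifs <;> omega
    rw [Finset.sum_congr rfl h4, Finset.sum_sub_distrib, ← h1, ← h2] at h3
    have h6 : d N = 0 := by simp only [hd, hcnt]; ring
    have h7 : d 0 = 0 := by simp only [hd, cnt_zero]; ring
    simp only [h6, h7, sub_self] at h3
    have h8 : (Fintype.card {x : {k // k ∈ (range N).filter (fun k => b k = a)} // d x.1 = L} : ℤ)
      = (Fintype.card {y : {k // k ∈ (range N).filter (fun k => b k = c)} // d (y.1 + 1) = L} : ℤ) := by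
      linarith
    exact_mod_cast h8
  set e := Equiv.ofFiberEquiv (f := fun x : {k // k ∈ (range N).filter (fun k => b k = a)} => d x.1)
    (g := fun y : {k // k ∈ (range N).filter (fun k => b k = c)} => d (y.1 + 1))
    (fun L => Fintype.equivOfCardEq (hlevel L)) with he
  refine ⟨e, ?_⟩
  intro k
  have hlev : d ((e k).1 + 1) = d k.1 :=
    Equiv.ofFiberEquiv_map
      (f := fun x : {k // k ∈ (range N).filter (fun k => b k = a)} => d x.1)
      (g := fun y : {k // k ∈ (range N).filter (fun k => b k = c)} => d (y.1 + 1))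
      (fun L => Fintype.equivOfCardEq (hlevel L)) k
  have hka : b k.1 = a := (Finset.mem_filter.mp k.2).2
  have hkc : b (e k).1 = c := (Finset.mem_filter.mp (e k).2).2
  have h1 : tm b u k.1 = u a * (d k.1 : ℝ) + u l * ((cnt b l k.1 - cnt b c k.1 : ℤ) : ℝ) + u a / 2 := by
    rw [tm, S_eq, hsum, hka]
    simp only [hd]
    push_cast
    linear_combination (cnt b c k.1 : ℝ) * hu
  have h2 : tm b u (e k).1 = u a * (d ((e k).1 + 1) : ℝ)
      + u l * ((cnt b l ((e k).1 + 1) - cnt b c ((e k).1 + 1) : ℤ) : ℝ) - u c / 2 := by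
    have h3 : tm b u (e k).1 = S b u ((e k).1 + 1) - u c / 2 := by
      rw [tm, S_succ, hkc]
      ring
    rw [h3, S_eq, hsum]
    simp only [hd]
    push_cast
    linear_combination (cnt b c ((e k).1 + 1) : ℝ) * hu
  rw [h1, h2, hlev]
  set p : ℤ := cnt b l k.1 - cnt b c k.1 - (cnt b l ((e k).1 + 1) - cnt b c ((e k).1 + 1)) with hp
  have h3 : u a * (d k.1 : ℝ) + u l * ((cnt b l k.1 - cnt b c k.1 : ℤ) : ℝ) + u a / 2
      - (u a * (d k.1 : ℝ)
      + u l * ((cnt b l ((e k).1 + 1) - cnt b c ((e k).1 + 1) : ℤ) : ℝ) - u c / 2)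
      = u l * ((p : ℝ) - 1 / 2) := by
    rw [hp]
    push_cast
    linear_combination (1 / 2) * hu
  rw [h3, mul_pow]
  have h4 : (1 : ℝ) / 4 ≤ ((p : ℝ) - 1 / 2) ^ 2 := by
    have h5 : 0 ≤ p * (p - 1) := by
      rcases le_or_gt p 0 with h | h
      · exact mul_nonneg_of_nonpos_of_nonpos h (by omega)
      · exact mul_nonneg (by omega) (by omega)
    have h6 : (0 : ℝ) ≤ (p : ℝ) * ((p : ℝ) - 1) := by exact_mod_cast h5
    nlinarith
  nlinarith [sq_nonneg (u l)]

end walk

end Pool.Agent.X314.Balls
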