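import Mathlib
import Pool.Agent.X314.Balls1

/-!
# Helper lemmas for MP_c8d2d2_an (three types of charged balls on a circle), part 2
-/

set_option autoImplicit false
set_option linter.unusedSectionVars false

open Finset

namespace Pool.Agent.X314.Balls

section walk2

variable (b : ℕ → Fin 3) (u : Fin 3 → ℝ)

/-- mean of the midpoints of the steps of type `a` -/
noncomputable def T (N n : ℕ) (a : Fin 3) : ℝ :=
  (∑ k ∈ (range N).filter (fun k => b k = a), tm b u k) / n

/-- mean of the squared midpoints of the steps of type `a` -/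
noncomputable def M (N n : ℕ) (a : Fin 3) : ℝ :=
  (∑ k ∈ (range N).filter (fun k => b k = a), tm b u k ^ 2) / n

lemma P_ineq (N n : ℕ) (hn : 0 < n) (hcnt : ∀ x, cnt b x N = n) (a c l : Fin 3) (hac : a ≠ c)
    (hu : u a + u c + u l = 0) (hsum : ∀ F : Fin 3 → ℝ, ∑ x, F x = F a + F c + F l) :
    u l ^ 2 / 4 ≤ (√(M b u N n a - T b u N n a ^ 2) + √(M b u N n c - T b u N n c ^ 2)) ^ 2
      + (T b u N n a - T b u N n c) ^ 2 := by
  obtain ⟨e, he⟩ := pairing b u N n hcnt a c l hac hu hsum
  have hcard : Fintype.card {k // k ∈ (range N).filter (fun k => b k = a)} = n := by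
    rw [Fintype.card_coe]
    have h0 := hcnt a
    unfold cnt at h0
    exact_mod_cast h0
  have h := couple n hn hcard (fun k => tm b u k.1) (fun k => tm b u (e k).1) (u l ^ 2 / 4) he
  have e1 : ∑ k : {k // k ∈ (range N).filter (fun k => b k = a)}, tm b u k.1
      = ∑ k ∈ (range N).filter (fun k => b k = a), tm b u k := Finset.sum_coe_sort _ _
  have e2 : ∑ k : {k // k ∈ (range N).filter (fun k => b k = a)}, tm b u k.1 ^ 2
      = ∑ k ∈ (range N).filter (fun k => b k = a), tm b u k ^ 2 :=
    Finset.sum_coe_sort _ (fun k => tm b u k ^ 2)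
  have e3 : ∑ k : {k // k ∈ (range N).filter (fun k => b k = a)}, tm b u (e k).1
      = ∑ k ∈ (range N).filter (fun k => b k = c), tm b u k := by
    rw [Equiv.sum_comp e (fun y => tm b u y.1)]
    exact Finset.sum_coe_sort _ _
  have e4 : ∑ k : {k // k ∈ (range N).filter (fun k => b k = a)}, tm b u (e k).1 ^ 2
      = ∑ k ∈ (range N).filter (fun k => b k = c), tm b u k ^ 2 := by
    rw [Equiv.sum_comp e (fun y => tm b u y.1 ^ 2)]
    exact Finset.sum_coe_sort _ (fun k => tm b u k ^ 2)
  simp only [e1, e2, e3, e4] at h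
  exact h

lemma V_nonneg (N n : ℕ) (hn : 0 < n) (hcnt : ∀ x, cnt b x N = n) (a : Fin 3) :
    T b u N n a ^ 2 ≤ M b u N n a := by
  have h := sq_sum_le_card_mul_sum_sq (s := (range N).filter (fun k => b k = a))
    (f := fun k => tm b u k)
  have hcard : (((range N).filter (fun k => b k = a)).card : ℝ) = n := by
    have := hcnt a
    unfold cnt at this
    exact_mod_cast this
  rw [hcard] at h
  have hn0 : (0 : ℝ) < n := by exact_mod_cast hn
  unfold T M
  rw [div_pow, div_le_div_iff₀ (by positivity) hn0]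
  nlinarith

lemma I_one (N n : ℕ) (hSN : S b u N = 0) :
    ∑ a, u a * T b u N n a = 0 := by
  have h := id_one b u N hSN
  rw [group b N u (fun k => tm b u k)] at h
  unfold T
  have : ∑ a, u a * ((∑ k ∈ (range N).filter (fun k => b k = a), tm b u k) / n)
      = (∑ a, u a * (∑ k ∈ (range N).filter (fun k => b k = a), tm b u k)) / n := by
    rw [Finset.sum_div]
    exact Finset.sum_congr rfl fun a _ => by ring
  rw [this, h, zero_div]

/-- grouping the constant part -/
lemma group_one (N n : ℕ) (hn : 0 < n) (hcnt : ∀ x, cnt b x N = n) (F : Fin 3 → ℝ) :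
    (∑ k ∈ range N, F (b k)) / n = ∑ a, F a := by
  have hn0 : (0 : ℝ) < n := by exact_mod_cast hn
  have h := group b N F (fun _ => 1)
  simp only [mul_one, Finset.sum_const, nsmul_eq_mul] at h
  rw [h, Finset.sum_div]
  refine Finset.sum_congr rfl fun a _ => ?_
  have hcard : (((range N).filter (fun k => b k = a)).card : ℝ) = n := by
    have := hcnt a
    unfold cnt at this
    exact_mod_cast this
  rw [hcard]
  field_simp

lemma group_T (N n : ℕ) (F : Fin 3 → ℝ) :
    (∑ k ∈ range N, F (b k) * tm b u k) / n = ∑ a, F a * T b u N n a := by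
  rw [group b N F (fun k => tm b u k), Finset.sum_div]
  refine Finset.sum_congr rfl fun a _ => ?_
  unfold T
  ring

lemma group_M (N n : ℕ) (F : Fin 3 → ℝ) :
    (∑ k ∈ range N, F (b k) * tm b u k ^ 2) / n = ∑ a, F a * M b u N n a := by
  rw [group b N F (fun k => tm b u k ^ 2), Finset.sum_div]
  refine Finset.sum_congr rfl fun a _ => ?_
  unfold M
  ring

lemma I_two (N n : ℕ) (hn : 0 < n) (hcnt : ∀ x, cnt b x N = n) (hSN : S b u N = 0) :
    ∑ a, u a * (3 * M b u N n a + u a ^ 2 / 4) = 0 := by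
  have h := id_two b u N hSN
  have e : ∀ k ∈ range N, u (b k) * (3 * tm b u k ^ 2 + u (b k) ^ 2 / 4)
      = 3 * (u (b k) * tm b u k ^ 2) + (fun a => u a ^ 3 / 4) (b k) := by
    intro k _
    simp only
    ring
  rw [Finset.sum_congr rfl e, Finset.sum_add_distrib, ← Finset.mul_sum] at h
  have h1 := group_M b u N n u
  have h2 := group_one b N n hn hcnt (fun a => u a ^ 3 / 4)
  have e2 : ∀ a ∈ (Finset.univ : Finset (Fin 3)), u a * (3 * M b u N n a + u a ^ 2 / 4)
      = 3 * (u a * M b u N n a) + u a ^ 3 / 4 := by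
    intro a _
    ring
  rw [Finset.sum_congr rfl e2, Finset.sum_add_distrib, ← Finset.mul_sum, ← h1, ← h2, ← mul_div_assoc,
    ← add_div, h, zero_div]

/-- the optimal value -/
noncomputable def K (w : Fin 3 → ℝ) : ℝ :=
  (∑ a, w a * u a ^ 2) / 4
    + (w 0 * w 1 * u 2 ^ 2 + w 1 * w 2 * u 0 ^ 2 + w 2 * w 0 * u 1 ^ 2) / 4

/-- the selection of the pair -/
lemma select (x : Fin 3 → ℝ) (w : Fin 3 → ℝ) (hw : ∀ i, 0 < w i)
    (hs : w 0 * x 0 + w 1 * x 1 + w 2 * x 2 = 0) :
    (x 0 = 0 ∧ x 1 = 0 ∧ x 2 = 0) ∨ (x 0 * x 1 ≤ 0 ∧ x 0 ≠ x 1) ∨ (x 1 * x 2 ≤ 0 ∧ x 1 ≠ x 2)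
      ∨ (x 2 * x 0 ≤ 0 ∧ x 2 ≠ x 0) := by
  have h0 := hw 0
  have h1 := hw 1
  have h2 := hw 2
  by_cases a0 : x 0 = 0
  · by_cases a1 : x 1 = 0
    · left
      refine ⟨a0, a1, ?_⟩
      rw [a0, a1] at hs
      have : w 2 * x 2 = 0 := by linarith
      rcases mul_eq_zero.mp this with h | h
      · exact absurd h h2.ne'
      · exact h
    · right; left
      refine ⟨by rw [a0]; simp, ?_⟩
      rw [a0]
      exact fun h => a1 h.symm
  · by_cases a1 : x 1 = 0
    · right; left
      refine ⟨by rw [a1]; simp, ?_⟩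
      rw [a1]
      exact a0
    · by_cases a2 : x 2 = 0
      · right; right; left
        refine ⟨by rw [a2]; simp, ?_⟩
        rw [a2]
        exact a1
      · -- all nonzero
        by_cases p01 : x 0 * x 1 ≤ 0
        · right; left
          refine ⟨p01, fun h => ?_⟩
          rw [h] at p01
          have : 0 < x 1 * x 1 := mul_self_pos.mpr a1
          linarith
        · by_cases p12 : x 1 * x 2 ≤ 0
          · right; right; left
            refine ⟨p12, fun h => ?_⟩
            rw [h] at p12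
            have : 0 < x 2 * x 2 := mul_self_pos.mpr a2
            linarith
          · exfalso
            push Not at p01 p12
            rcases lt_or_gt_of_ne a1 with h | h
            · have q0 : x 0 < 0 := neg_of_mul_pos_left p01 h.le
              have q2 : x 2 < 0 := by
                rw [mul_comm] at p12
                exact neg_of_mul_pos_left p12 h.le
              have r0 := mul_neg_of_pos_of_neg h0 q0
              have r1 := mul_neg_of_pos_of_neg h1 h
              have r2 := mul_neg_of_pos_of_neg h2 q2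
              linarith
            · have q0 : 0 < x 0 := pos_of_mul_pos_left p01 h.le
              have q2 : 0 < x 2 := by
                rw [mul_comm] at p12
                exact pos_of_mul_pos_left p12 h.le
              have r0 := mul_pos h0 q0
              have r1 := mul_pos h1 h
              have r2 := mul_pos h2 q2
              linarith

lemma S_N (N n : ℕ) (hcnt : ∀ x, cnt b x N = n) (hu : ∑ a, u a = 0) : S b u N = 0 := by
  rw [S_eq]
  have : ∀ a ∈ (Finset.univ : Finset (Fin 3)), u a * (cnt b a N : ℝ) = u a * n := by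
    intro a _
    rw [hcnt]
    simp
  rw [Finset.sum_congr rfl this, ← Finset.sum_mul, hu, zero_mul]

lemma walk_bound (N n : ℕ) (hn : 0 < n) (hcnt : ∀ x, cnt b x N = n) (w : Fin 3 → ℝ)
    (hw0 : ∀ i, 0 < w i) (hw : ∑ i, w i = 1) (hu : ∑ a, u a = 0) :
    K u w ≤ ∑ a, w a * (M b u N n a + u a ^ 2 / 4) - (∑ a, w a * T b u N n a) ^ 2 := by
  have hSN := S_N b u N n hcnt hu
  have i1 := I_one b u N n hSN
  have i2 := I_two b u N n hn hcnt hSN
  have v := V_nonneg b u N n hn hcnt
  have p01 := P_ineq b u N n hn hcnt 0 1 2 (by decide) (by rw [Fin.sum_univ_three] at hu; linarith)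
    (fun F => by rw [Fin.sum_univ_three])
  have p12 := P_ineq b u N n hn hcnt 1 2 0 (by decide) (by rw [Fin.sum_univ_three] at hu; linarith)
    (fun F => by rw [Fin.sum_univ_three]; ring)
  have p20 := P_ineq b u N n hn hcnt 2 0 1 (by decide) (by rw [Fin.sum_univ_three] at hu; linarith)
    (fun F => by rw [Fin.sum_univ_three]; ring)
  unfold K
  rw [Fin.sum_univ_three] at hu hw i1 i2
  simp only [Fin.sum_univ_three]
  have hs : w 0 * (w 1 * u 2 - w 2 * u 1) + w 1 * (w 2 * u 0 - w 0 * u 2)
      + w 2 * (w 0 * u 1 - w 1 * u 0) = 0 := by ring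
  have key := select ![w 1 * u 2 - w 2 * u 1, w 2 * u 0 - w 0 * u 2, w 0 * u 1 - w 1 * u 0] w hw0
    (by simpa using hs)
  have d01 : (w 1 * u 2 - w 2 * u 1) - (w 2 * u 0 - w 0 * u 2) = u 2 := by
    linear_combination (u 2) * hw - w 2 * hu
  have d12 : (w 2 * u 0 - w 0 * u 2) - (w 0 * u 1 - w 1 * u 0) = u 0 := by
    linear_combination (u 0) * hw - w 0 * hu
  have d20 : (w 0 * u 1 - w 1 * u 0) - (w 1 * u 2 - w 2 * u 1) = u 1 := by
    linear_combination (u 1) * hw - w 1 * hu
  simp only [Matrix.cons_val_zero, Matrix.cons_val_one, Matrix.cons_val] at key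
  rcases key with ⟨k0, k1, k2⟩ | ⟨k1, k2⟩ | ⟨k1, k2⟩ | ⟨k1, k2⟩
  · have u2 : u 2 = 0 := by rw [← d01, k0, k1]; ring
    have u0 : u 0 = 0 := by rw [← d12, k1, k2]; ring
    have u1 : u 1 = 0 := by rw [← d20, k0, k2]; ring
    have hj : (w 0 * T b u N n 0 + w 1 * T b u N n 1 + w 2 * T b u N n 2) ^ 2
        ≤ w 0 * M b u N n 0 + w 1 * M b u N n 1 + w 2 * M b u N n 2 := by
      have e1 : (w 0 * T b u N n 0 + w 1 * T b u N n 1 + w 2 * T b u N n 2) ^ 2
          = w 0 * T b u N n 0 ^ 2 + w 1 * T b u N n 1 ^ 2 + w 2 * T b u N n 2 ^ 2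
          - (w 0 * w 1 * (T b u N n 0 - T b u N n 1) ^ 2
            + w 1 * w 2 * (T b u N n 1 - T b u N n 2) ^ 2
            + w 2 * w 0 * (T b u N n 2 - T b u N n 0) ^ 2) := by
        have e2 : w 2 = 1 - w 0 - w 1 := by linarith
        rw [e2]
        ring
      rw [e1]
      have g0 := mul_le_mul_of_nonneg_left (v 0) (hw0 0).le
      have g1 := mul_le_mul_of_nonneg_left (v 1) (hw0 1).le
      have g2 := mul_le_mul_of_nonneg_left (v 2) (hw0 2).le
      have f0 := hw0 0
      have f1 := hw0 1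
      have f2 := hw0 2
      have g3 : 0 ≤ w 0 * w 1 * (T b u N n 0 - T b u N n 1) ^ 2
            + w 1 * w 2 * (T b u N n 1 - T b u N n 2) ^ 2
            + w 2 * w 0 * (T b u N n 2 - T b u N n 0) ^ 2 := by positivity
      linarith
    rw [u0, u1, u2]
    linarith
  · have hul : u 2 ≠ 0 := by
      rw [← d01]
      exact sub_ne_zero.mpr k2
    have := core (w 0) (w 1) (w 2) (u 0) (u 1) (u 2) (T b u N n 0) (T b u N n 1) (T b u N n 2)
      (M b u N n 0) (M b u N n 1) (M b u N n 2) (hw0 0).le (hw0 1).le (hw0 2).le hw hu i1 i2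
      (v 0) (v 1) (v 2) p01 hul k1
    linarith
  · have hul : u 0 ≠ 0 := by
      rw [← d12]
      exact sub_ne_zero.mpr k2
    have := core (w 1) (w 2) (w 0) (u 1) (u 2) (u 0) (T b u N n 1) (T b u N n 2) (T b u N n 0)
      (M b u N n 1) (M b u N n 2) (M b u N n 0) (hw0 1).le (hw0 2).le (hw0 0).le (by linarith)
      (by linarith) (by linarith) (by linarith)
      (v 1) (v 2) (v 0) p12 hul k1
    have e1 : (w 1 * T b u N n 1 + w 2 * T b u N n 2 + w 0 * T b u N n 0)
      = (w 0 * T b u N n 0 + w 1 * T b u N n 1 + w 2 * T b u N n 2) := by ring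
    rw [e1] at this
    linarith
  · have hul : u 1 ≠ 0 := by
      rw [← d20]
      exact sub_ne_zero.mpr k2
    have := core (w 2) (w 0) (w 1) (u 2) (u 0) (u 1) (T b u N n 2) (T b u N n 0) (T b u N n 1)
      (M b u N n 2) (M b u N n 0) (M b u N n 1) (hw0 2).le (hw0 0).le (hw0 1).le (by linarith)
      (by linarith) (by linarith) (by linarith)
      (v 2) (v 0) (v 1) p20 hul k1
    have e1 : (w 2 * T b u N n 2 + w 0 * T b u N n 0 + w 1 * T b u N n 1)
      = (w 0 * T b u N n 0 + w 1 * T b u N n 1 + w 2 * T b u N n 2) := by ring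
    rw [e1] at this
    linarith

end walk2

end Pool.Agent.X314.Balls
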