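import Mathlib

/-! Counting bounded monotone sequences, with one entry prescribed. -/

namespace X314.Height

open Finset

/-- Monotone sequences of length `m` with values in `[L, b]`. -/
def Mon (b m L : ℕ) : Finset (Fin m → ℕ) := by
  classical exact
  (Fintype.piFinset fun _ : Fin m => Finset.Icc L b).filter (fun t => Monotone t)

theorem mem_Mon {b m L : ℕ} {t : Fin m → ℕ} :
    t ∈ Mon b m L ↔ (∀ k, L ≤ t k ∧ t k ≤ b) ∧ Monotone t := by
  classical
  unfold Mon
  rw [Finset.mem_filter, Fintype.mem_piFinset]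
  simp only [Finset.mem_Icc]

theorem monotone_cons {m : ℕ} {v : ℕ} {t : Fin m → ℕ} :
    Monotone (Fin.cons v t : Fin (m + 1) → ℕ) ↔ (∀ k, v ≤ t k) ∧ Monotone t := by
  constructor
  · intro h
    constructor
    · intro k
      have := h (Fin.zero_le (Fin.succ k))
      simpa using this
    · intro k l hkl
      have := h (Fin.succ_le_succ_iff.mpr hkl)
      simpa using this
  · rintro ⟨h1, h2⟩ k l hkl
    induction k using Fin.cases with
    | zero =>
      induction l using Fin.cases with
      | zero => exact le_refl _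
      | succ l => simpa using h1 l
    | succ k =>
      induction l using Fin.cases with
      | zero =>
        exact absurd hkl (by simp)
      | succ l =>
        simpa using h2 (Fin.succ_le_succ_iff.mp hkl)

theorem sum_Mon_succ {M : Type*} [AddCommMonoid M] (b m L : ℕ) (F : (Fin (m + 1) → ℕ) → M) :
    ∑ t ∈ Mon b (m + 1) L, F t = ∑ v ∈ Icc L b, ∑ t ∈ Mon b m v, F (Fin.cons v t) := by
  classical
  rw [Finset.sum_sigma']
  symm
  refine Finset.sum_bij (fun p _ => (Fin.cons p.1 p.2 : Fin (m + 1) → ℕ)) ?_ ?_ ?_ ?_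
  · rintro ⟨v, t⟩ h
    simp only [Finset.mem_sigma, mem_Mon, Finset.mem_Icc] at h
    obtain ⟨⟨h1, h2⟩, h3, h4⟩ := h
    rw [mem_Mon]
    refine ⟨?_, monotone_cons.mpr ⟨fun k => (h3 k).1, h4⟩⟩
    intro k
    induction k using Fin.cases with
    | zero => simpa using ⟨h1, h2⟩
    | succ k => simpa using ⟨h1.trans (h3 k).1, (h3 k).2⟩
  · rintro ⟨v, t⟩ _ ⟨v', t'⟩ _ h
    simp only at h
    have h0 : v = v' := by simpa using congrFun h 0
    have h1 : t = t' := by
      funext k
      simpa using congrFun h k.succ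
    subst h0; subst h1; rfl
  · intro t ht
    rw [mem_Mon] at ht
    obtain ⟨h1, h2⟩ := ht
    refine ⟨⟨t 0, Fin.tail t⟩, ?_, ?_⟩
    · simp only [Finset.mem_sigma, mem_Mon, Finset.mem_Icc]
      refine ⟨h1 0, ?_, ?_⟩
      · intro k
        exact ⟨h2 (Fin.zero_le _), (h1 _).2⟩
      · intro k l hkl
        exact h2 (Fin.succ_le_succ_iff.mpr hkl)
    · simp
  · rintro ⟨v, t⟩ _
    rfl

theorem sum_Mon_zero {M : Type*} [AddCommMonoid M] (b L : ℕ) (F : (Fin 0 → ℕ) → M) :
    ∑ t ∈ Mon b 0 L, F t = F Fin.elim0 := by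
  classical
  have : Mon b 0 L = {Fin.elim0} := by
    ext t
    rw [mem_Mon, Finset.mem_singleton]
    constructor
    · intro _; funext k; exact k.elim0
    · intro _; exact ⟨fun k => k.elim0, fun k => k.elim0⟩
  rw [this, Finset.sum_singleton]

/-- First summation identity (`D = b - L`). -/
theorem id1 (m D : ℕ) : ∑ s ∈ range (D + 1), ((m + s).choose m : ℤ) = (m + 1 + D).choose (m + 1) := by
  induction D with
  | zero => simp
  | succ D ih =>
    rw [Finset.sum_range_succ, ih]
    have : (m + 1 + (D + 1)).choose (m + 1) = (m + 1 + D).choose m + (m + 1 + D).choose (m + 1) := by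
      rw [show m + 1 + (D + 1) = (m + 1 + D) + 1 by ring, Nat.choose_succ_succ]
    rw [this, show m + (D + 1) = m + 1 + D by ring]
    push_cast; ring

/-- Second summation identity (`D = b - L`). -/
theorem id2 (m D : ℕ) (b : ℤ) : ∑ s ∈ range (D + 1), ((m : ℤ) * (2 * b - s) + 2 * (b - s)) * ((m + s).choose m : ℤ)
    = (m + 1) * (2 * b - D) * (m + 1 + D).choose (m + 1) := by
  induction D with
  | zero => simp; ring
  | succ D ih =>
    rw [Finset.sum_range_succ, ih]
    have h1 : (m + 1 + (D + 1)).choose (m + 1) = (m + 1 + D).choose m + (m + 1 + D).choose (m + 1) := by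
      rw [show m + 1 + (D + 1) = (m + 1 + D) + 1 by ring, Nat.choose_succ_succ]
    have h2 : ((m + 1 + D).choose (m + 1) : ℤ) * (m + 1) = (m + 1 + D).choose m * (D + 1) := by
      have := Nat.choose_succ_right_eq (m + 1 + D) m
      rw [show m + 1 + D - m = D + 1 by omega] at this
      exact_mod_cast this
    rw [h1, show m + (D + 1) = m + 1 + D by ring]
    push_cast
    linear_combination h2

/-- Reflection of a sum over `Icc L b`. -/
theorem sum_Icc_reflect {M : Type*} [AddCommMonoid M] {L b : ℕ} (h : L ≤ b) (F : ℕ → M) :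
    ∑ v ∈ Icc L b, F v = ∑ s ∈ range (b - L + 1), F (b - s) := by
  refine Finset.sum_bij' (fun v _ => b - v) (fun s _ => b - s) ?_ ?_ ?_ ?_ ?_
  · intro v hv; simp only [Finset.mem_Icc, Finset.mem_range] at *; omega
  · intro v hv; simp only [Finset.mem_Icc, Finset.mem_range] at *; omega
  · intro v hv; simp only [Finset.mem_Icc] at *; omega
  · intro v hv; simp only [Finset.mem_range] at *; omega
  · intro v hv
    simp only [Finset.mem_Icc] at hv
    congr 1; omega

theorem id1' (m : ℕ) {L b : ℕ} (h : L ≤ b) :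
    ∑ v ∈ Icc L b, ((m + (b - v)).choose m : ℤ) = (m + 1 + (b - L)).choose (m + 1) := by
  rw [sum_Icc_reflect h]
  rw [← id1]
  refine Finset.sum_congr rfl ?_
  intro s hs
  rw [Finset.mem_range] at hs
  rw [show b - (b - s) = s by omega]

theorem id2' (m : ℕ) {L b : ℕ} (h : L ≤ b) :
    ∑ v ∈ Icc L b, ((m : ℤ) * (v + b) + 2 * v) * ((m + (b - v)).choose m : ℤ)
      = (m + 1) * (L + b) * (m + 1 + (b - L)).choose (m + 1) := by
  rw [sum_Icc_reflect h]
  have := id2 m (b - L) b
  rw [show ((m : ℤ) + 1) * (2 * (b : ℤ) - ((b - L : ℕ) : ℤ)) = (m + 1) * (L + b) by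
    rw [Nat.cast_sub h]; ring] at this
  rw [← this]
  refine Finset.sum_congr rfl ?_
  intro s hs
  rw [Finset.mem_range] at hs
  rw [show b - (b - s) = s by omega, Nat.cast_sub (show s ≤ b by omega)]
  ring

/-- Number of monotone sequences. -/
theorem cnt_Mon (b m L : ℕ) (h : L ≤ b) :
    ∑ _t ∈ Mon b m L, (1 : ℤ) = (m + (b - L)).choose m := by
  induction m generalizing L with
  | zero => rw [sum_Mon_zero]; simp
  | succ m ih =>
    rw [sum_Mon_succ]
    rw [← id1' m h]
    refine Finset.sum_congr rfl ?_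
    intro v hv
    rw [Finset.mem_Icc] at hv
    exact ih v hv.2

/-- Sum of the entries over all monotone sequences. -/
theorem tot_Mon (b m L : ℕ) (h : L ≤ b) :
    2 * ∑ t ∈ Mon b m L, ∑ k, (t k : ℤ) = m * (L + b) * (m + (b - L)).choose m := by
  induction m generalizing L with
  | zero => rw [sum_Mon_zero]; simp
  | succ m ih =>
    rw [sum_Mon_succ]
    have := id2' m h
    push_cast
    rw [show ((m + 1 + (b - L)).choose (m + 1)) = (m + 1 + (b - L)).choose (m + 1) from rfl] at this
    rw [← this, Finset.mul_sum]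
    refine Finset.sum_congr rfl ?_
    intro v hv
    rw [Finset.mem_Icc] at hv
    have h1 := ih v hv.2
    have h2 := cnt_Mon b m v hv.2
    simp only [Fin.sum_univ_succ, Fin.cons_zero, Fin.cons_succ]
    rw [Finset.sum_add_distrib, mul_add, h1]
    have h3 : ∑ _t ∈ Mon b m v, (v : ℤ) = v * ∑ _t ∈ Mon b m v, (1 : ℤ) := by
      rw [Finset.mul_sum]; simp
    rw [h3, h2]
    ring

/-- Number of monotone sequences in `[L, b]` with entry `r` equal to `v`. -/
theorem cnt_mark (b v : ℕ) (hv : v ≤ b) (r : ℕ) : ∀ (m : ℕ) (hr : r < m) (L : ℕ), L ≤ v →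
    ∑ t ∈ Mon b m L, (if t ⟨r, hr⟩ = v then (1 : ℤ) else 0)
      = (r + (v - L)).choose r * (m - 1 - r + (b - v)).choose (m - 1 - r) := by
  induction r with
  | zero =>
    intro m hr L hL
    obtain ⟨m, rfl⟩ : ∃ m', m = m' + 1 := ⟨m - 1, by omega⟩
    rw [sum_Mon_succ]
    rw [Finset.sum_eq_single v]
    · simp only [Nat.zero_add, Nat.choose_zero_right, Nat.cast_one, one_mul, Nat.add_sub_cancel,
        Nat.sub_zero]
      rw [← cnt_Mon b m v hv]
      refine Finset.sum_congr rfl ?_
      intro t _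
      rw [if_pos]
      rfl
    · intro u _ hu
      refine Finset.sum_eq_zero ?_
      intro t _
      rw [if_neg]
      exact hu
    · intro h
      exact absurd (Finset.mem_Icc.mpr ⟨hL, hv⟩) h
  | succ r ih =>
    intro m hr L hL
    obtain ⟨m, rfl⟩ : ∃ m', m = m' + 1 := ⟨m - 1, by omega⟩
    rw [sum_Mon_succ]
    have hsplit : ∑ u ∈ Icc L b, ∑ t ∈ Mon b m u,
        (if (Fin.cons u t : Fin (m + 1) → ℕ) ⟨r + 1, hr⟩ = v then (1 : ℤ) else 0)
        = ∑ u ∈ Icc L v, ∑ t ∈ Mon b m u,
        (if t ⟨r, by omega⟩ = v then (1 : ℤ) else 0) := by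
      symm
      refine Finset.sum_subset_zero_on_sdiff ?_ ?_ ?_
      · intro u hu
        rw [Finset.mem_Icc] at *
        omega
      · intro u hu
        simp only [Finset.mem_sdiff, Finset.mem_Icc] at hu
        refine Finset.sum_eq_zero ?_
        intro t ht
        rw [if_neg]
        rw [mem_Mon] at ht
        have := (ht.1 ⟨r, by omega⟩).1
        intro hc
        have hc' : t ⟨r, by omega⟩ = v := hc
        omega
      · intro u _
        rfl
    rw [hsplit]
    have h1 : ∀ u ∈ Icc L v, ∑ t ∈ Mon b m u, (if t ⟨r, by omega⟩ = v then (1 : ℤ) else 0)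
        = (r + (v - u)).choose r * (m - 1 - r + (b - v)).choose (m - 1 - r) := by
      intro u hu
      rw [Finset.mem_Icc] at hu
      exact ih m (by omega) u hu.2
    rw [Finset.sum_congr rfl h1, ← Finset.sum_mul, id1' r hL]
    rw [show m + 1 - 1 - (r + 1) = m - 1 - r by omega]

/-- Sum of the entries over monotone sequences with entry `r` equal to `v`. -/
theorem tot_mark (b v : ℕ) (hv : v ≤ b) (r : ℕ) : ∀ (m : ℕ) (hr : r < m) (L : ℕ), L ≤ v →
    2 * ∑ t ∈ Mon b m L, (if t ⟨r, hr⟩ = v then ∑ k, (t k : ℤ) else 0)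
      = (r * (L + v) + 2 * v + ((m - 1 - r : ℕ) : ℤ) * (v + b)) *
        ((r + (v - L)).choose r * (m - 1 - r + (b - v)).choose (m - 1 - r)) := by
  induction r with
  | zero =>
    intro m hr L hL
    obtain ⟨m, rfl⟩ : ∃ m', m = m' + 1 := ⟨m - 1, by omega⟩
    rw [sum_Mon_succ]
    rw [Finset.sum_eq_single v]
    · simp only [Nat.zero_add, Nat.choose_zero_right, Nat.cast_one, one_mul, Nat.add_sub_cancel,
        Nat.sub_zero, Nat.cast_zero, zero_mul, zero_add]
      have h2 := cnt_Mon b m v hv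
      have h1 := tot_Mon b m v hv
      have h3 : ∑ t ∈ Mon b m v, (if (Fin.cons v t : Fin (m + 1) → ℕ) ⟨0, hr⟩ = v then
          ∑ k, (((Fin.cons v t : Fin (m + 1) → ℕ) k : ℕ) : ℤ) else 0)
          = v * ∑ _t ∈ Mon b m v, (1 : ℤ) + ∑ t ∈ Mon b m v, ∑ k, (t k : ℤ) := by
        rw [Finset.mul_sum, ← Finset.sum_add_distrib]
        refine Finset.sum_congr rfl ?_
        intro t _
        rw [if_pos (show (Fin.cons v t : Fin (m + 1) → ℕ) ⟨0, hr⟩ = v from rfl)]
        simp only [Fin.sum_univ_succ, Fin.cons_zero, Fin.cons_succ]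
        ring
      rw [h3, mul_add, h1, h2]
      ring
    · intro u _ hu
      refine Finset.sum_eq_zero ?_
      intro t _
      rw [if_neg]
      exact hu
    · intro h
      exact absurd (Finset.mem_Icc.mpr ⟨hL, hv⟩) h
  | succ r ih =>
    intro m hr L hL
    obtain ⟨m, rfl⟩ : ∃ m', m = m' + 1 := ⟨m - 1, by omega⟩
    rw [sum_Mon_succ]
    have hsplit : ∑ u ∈ Icc L b, ∑ t ∈ Mon b m u,
        (if (Fin.cons u t : Fin (m + 1) → ℕ) ⟨r + 1, hr⟩ = v then
          ∑ k, (((Fin.cons u t : Fin (m + 1) → ℕ) k : ℕ) : ℤ) else 0)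
        = ∑ u ∈ Icc L v, (∑ t ∈ Mon b m u,
        (if t ⟨r, by omega⟩ = v then ∑ k, (t k : ℤ) else 0) +
        u * ∑ t ∈ Mon b m u, (if t ⟨r, by omega⟩ = v then (1 : ℤ) else 0)) := by
      symm
      refine Finset.sum_subset_zero_on_sdiff ?_ ?_ ?_
      · intro u hu
        rw [Finset.mem_Icc] at *
        omega
      · intro u hu
        simp only [Finset.mem_sdiff, Finset.mem_Icc] at hu
        refine Finset.sum_eq_zero ?_
        intro t ht
        rw [if_neg]
        rw [mem_Mon] at ht
        have := (ht.1 ⟨r, by omega⟩).1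
        intro hc
        have hc' : t ⟨r, by omega⟩ = v := hc
        omega
      · intro u _
        rw [Finset.mul_sum, ← Finset.sum_add_distrib]
        refine Finset.sum_congr rfl ?_
        intro t _
        by_cases hc : t ⟨r, by omega⟩ = v
        · rw [if_pos hc, if_pos hc, if_pos (show (Fin.cons u t : Fin (m + 1) → ℕ) ⟨r + 1, hr⟩ = v from hc)]
          simp only [Fin.sum_univ_succ, Fin.cons_zero, Fin.cons_succ]
          ring
        · rw [if_neg hc, if_neg hc, if_neg (show ¬ (Fin.cons u t : Fin (m + 1) → ℕ) ⟨r + 1, hr⟩ = v from hc)]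
          ring
    rw [hsplit]
    have h1 : ∀ u ∈ Icc L v, 2 * (∑ t ∈ Mon b m u, (if t ⟨r, by omega⟩ = v then ∑ k, (t k : ℤ) else 0) +
        u * ∑ t ∈ Mon b m u, (if t ⟨r, by omega⟩ = v then (1 : ℤ) else 0))
        = ((r : ℤ) * (u + v) + 2 * u) * (r + (v - u)).choose r *
            (m - 1 - r + (b - v)).choose (m - 1 - r)
          + (r + (v - u)).choose r * ((2 * v + ((m - 1 - r : ℕ) : ℤ) * (v + b)) *
            (m - 1 - r + (b - v)).choose (m - 1 - r)) := by
      intro u hu
      rw [Finset.mem_Icc] at hu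
      rw [mul_add, ih m (by omega) u hu.2, cnt_mark b v hv r m (by omega) u hu.2]
      ring
    rw [Finset.mul_sum, Finset.sum_congr rfl h1, Finset.sum_add_distrib, ← Finset.sum_mul,
      ← Finset.sum_mul, id1' r hL, id2' r hL]
    rw [show m + 1 - 1 - (r + 1) = m - 1 - r by omega]
    push_cast
    ring

end X314.Height
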