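import Pool.Agent.X314.Height1

/-! Bijections of two chains with an initial segment, versus monotone sequences. -/

namespace X314.Height

open Finset

/-- A lower set of `Fin b` is an initial segment. -/
theorem lower_card {b : ℕ} (S : Finset (Fin b)) (h : ∀ l ∈ S, ∀ l' ≤ l, l' ∈ S) (l : Fin b) :
    l ∈ S ↔ (l : ℕ) < S.card := by
  constructor
  · intro hl
    have h1 : Finset.Iic l ⊆ S := by
      intro l' hl'
      exact h l hl l' (Finset.mem_Iic.mp hl')
    have h2 := Finset.card_le_card h1
    rw [Fin.card_Iic] at h2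
    omega
  · intro hl
    by_contra hn
    have h1 : S ⊆ Finset.Iio l := by
      intro l' hl'
      rw [Finset.mem_Iio]
      by_contra hc
      exact hn (h l' hl' l (not_lt.mp hc))
    have h2 := Finset.card_le_card h1
    rw [Fin.card_Iio] at h2
    omega

/-- For a bijection onto `Fin n`, the number of elements placed below position `v` is `v`. -/
theorem card_below {α : Type*} [Fintype α] {n : ℕ} (f : α ≃ Fin n) (v : Fin n) :
    (Finset.univ.filter (fun y => f y < v)).card = (v : ℕ) := by
  have : (Finset.univ.filter (fun y => f y < v)) = (Finset.Iio v).map f.symm.toEmbedding := by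
    ext y
    simp only [Finset.mem_filter, Finset.mem_univ, true_and, Finset.mem_map_equiv,
      Equiv.symm_symm, Finset.mem_Iio]
  rw [this, Finset.card_map, Fin.card_Iio]

/-- increasing along both chains -/
def ChainMono {A b n : ℕ} (f : Fin A ⊕ Fin b ≃ Fin n) : Prop :=
  (StrictMono fun k => f (Sum.inl k)) ∧ (StrictMono fun l => f (Sum.inr l))

/-- number of `inr` elements before `inl k` -/
def before {A b n : ℕ} (f : Fin A ⊕ Fin b ≃ Fin n) (k : Fin A) : ℕ :=
  (Finset.univ.filter (fun l : Fin b => f (Sum.inr l) < f (Sum.inl k))).card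

theorem before_le {A b n : ℕ} (f : Fin A ⊕ Fin b ≃ Fin n) (k : Fin A) : before f k ≤ b := by
  unfold before
  calc _ ≤ (Finset.univ : Finset (Fin b)).card := Finset.card_le_card (Finset.filter_subset _ _)
    _ = b := by simp

theorem card_sum_filter {A b : ℕ} (p : Fin A ⊕ Fin b → Prop) [DecidablePred p] :
    (Finset.univ.filter p).card = (Finset.univ.filter (fun k => p (Sum.inl k))).card
      + (Finset.univ.filter (fun l => p (Sum.inr l))).card := by
  classical
  simp only [Finset.card_filter]
  rw [Fintype.sum_sum_type]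

theorem val_inl {A b n : ℕ} (f : Fin A ⊕ Fin b ≃ Fin n) (hf : ChainMono f) (k : Fin A) :
    (f (Sum.inl k) : ℕ) = k + before f k := by
  rw [← card_below f (f (Sum.inl k)), card_sum_filter]
  congr 1
  have : (Finset.univ.filter (fun k' : Fin A => f (Sum.inl k') < f (Sum.inl k))) = Finset.Iio k := by
    ext k'
    rw [Finset.mem_filter, Finset.mem_Iio]
    simp only [Finset.mem_univ, true_and]
    exact hf.1.lt_iff_lt
  rw [this, Fin.card_Iio]

theorem inr_lt_inl {A b n : ℕ} (f : Fin A ⊕ Fin b ≃ Fin n) (hf : ChainMono f) (k : Fin A)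
    (l : Fin b) : f (Sum.inr l) < f (Sum.inl k) ↔ (l : ℕ) < before f k := by
  rw [before, ← lower_card]
  · simp
  · intro l hl l' hl'
    rw [Finset.mem_filter] at *
    exact ⟨Finset.mem_univ _, lt_of_le_of_lt (hf.2.monotone hl') hl.2⟩

theorem inl_lt_inr {A b n : ℕ} (f : Fin A ⊕ Fin b ≃ Fin n) (hf : ChainMono f) (k : Fin A)
    (l : Fin b) : f (Sum.inl k) < f (Sum.inr l) ↔ before f k ≤ (l : ℕ) := by
  rw [← not_lt (a := (l : ℕ)), ← inr_lt_inl f hf, not_lt]
  constructor
  · intro h; exact h.le
  · intro h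
    refine lt_of_le_of_ne h ?_
    intro hc
    have := f.injective hc
    simp at this

theorem val_inr {A b n : ℕ} (f : Fin A ⊕ Fin b ≃ Fin n) (hf : ChainMono f) (l : Fin b) :
    (f (Sum.inr l) : ℕ) = (Finset.univ.filter (fun k : Fin A => before f k ≤ (l : ℕ))).card + l := by
  rw [← card_below f (f (Sum.inr l)), card_sum_filter]
  congr 1
  · congr 1
    ext k
    simp only [Finset.mem_filter, Finset.mem_univ, true_and]
    exact inl_lt_inr f hf k l
  · have : (Finset.univ.filter (fun l' : Fin b => f (Sum.inr l') < f (Sum.inr l))) = Finset.Iio l := by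
      ext k'
      rw [Finset.mem_filter, Finset.mem_Iio]
      simp only [Finset.mem_univ, true_and]
      exact hf.2.lt_iff_lt
    rw [this, Fin.card_Iio]

theorem before_mono {A b n : ℕ} (f : Fin A ⊕ Fin b ≃ Fin n) (hf : ChainMono f) :
    Monotone (before f) := by
  intro k k' h
  unfold before
  apply Finset.card_le_card
  intro l hl
  rw [Finset.mem_filter] at *
  exact ⟨Finset.mem_univ _, lt_of_lt_of_le hl.2 (hf.1.monotone h)⟩

/-- the map of a monotone sequence -/
def mkFun {A b : ℕ} (t : Fin A → ℕ) : Fin A ⊕ Fin b → ℕ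
  | Sum.inl k => k + t k
  | Sum.inr l => (Finset.univ.filter (fun k : Fin A => t k ≤ (l : ℕ))).card + l

theorem filter_le_lower {A : ℕ} {t : Fin A → ℕ} (ht : Monotone t) (l : ℕ) (k : Fin A) :
    t k ≤ l ↔ (k : ℕ) < (Finset.univ.filter (fun k : Fin A => t k ≤ l)).card := by
  rw [← lower_card]
  · simp
  · intro k hk k' hk'
    rw [Finset.mem_filter] at *
    exact ⟨Finset.mem_univ _, (ht hk').trans hk.2⟩

theorem exists_of_seq {A b : ℕ} (t : Fin A → ℕ) (ht : Monotone t) (htb : ∀ k, t k ≤ b) :
    ∃ f : Fin A ⊕ Fin b ≃ Fin (A + b), ChainMono f ∧ ∀ k, before f k = t k := by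
  have hlt : ∀ y : Fin A ⊕ Fin b, mkFun t y < A + b := by
    intro y
    rcases y with k | l
    · have := htb k
      simp only [mkFun]; omega
    · have h1 : (Finset.univ.filter (fun k : Fin A => t k ≤ (l : ℕ))).card ≤ A := by
        calc _ ≤ (Finset.univ : Finset (Fin A)).card := Finset.card_le_card (Finset.filter_subset _ _)
          _ = A := by simp
      simp only [mkFun]; omega
  let g : Fin A ⊕ Fin b → Fin (A + b) := fun y => ⟨mkFun t y, hlt y⟩
  have hg1 : StrictMono fun k => g (Sum.inl k) := by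
    intro k k' h
    have := ht h.le
    simp only [g, mkFun, Fin.mk_lt_mk]
    have h' : (k : ℕ) < k' := h
    omega
  have hg2 : StrictMono fun l => g (Sum.inr l) := by
    intro l l' h
    simp only [g, mkFun, Fin.mk_lt_mk]
    have h' : (l : ℕ) < l' := h
    have : (Finset.univ.filter (fun k : Fin A => t k ≤ (l : ℕ))).card ≤
        (Finset.univ.filter (fun k : Fin A => t k ≤ (l' : ℕ))).card := by
      apply Finset.card_le_card
      intro k hk
      rw [Finset.mem_filter] at *
      exact ⟨Finset.mem_univ _, hk.2.trans h'.le⟩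
    omega
  have hne : ∀ k l, g (Sum.inl k) ≠ g (Sum.inr l) := by
    intro k l hc
    have hc' : (k : ℕ) + t k = (Finset.univ.filter (fun k : Fin A => t k ≤ (l : ℕ))).card + l := by
      have := congrArg Fin.val hc
      simpa only [g, mkFun] using this
    have h1 := filter_le_lower ht (l : ℕ) k
    by_cases h2 : t k ≤ (l : ℕ)
    · have := h1.mp h2; omega
    · have : ¬ ((k : ℕ) < (Finset.univ.filter (fun k : Fin A => t k ≤ (l : ℕ))).card) :=
        fun h => h2 (h1.mpr h)
      omega
  have hinj : Function.Injective g := by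
    rintro (k | l) (k' | l') h
    · rw [hg1.injective h]
    · exact absurd h (hne k l')
    · exact absurd h.symm (hne k' l)
    · rw [hg2.injective h]
  have hbij : Function.Bijective g := by
    rw [Fintype.bijective_iff_injective_and_card]
    exact ⟨hinj, by simp⟩
  refine ⟨Equiv.ofBijective g hbij, ⟨hg1, hg2⟩, ?_⟩
  intro k
  have h1 := val_inl (Equiv.ofBijective g hbij) ⟨hg1, hg2⟩ k
  have h2 : ((Equiv.ofBijective g hbij (Sum.inl k) : Fin (A + b)) : ℕ) = k + t k := rfl
  omega

/-- The bijections increasing along both chains. -/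
noncomputable def CM (A b : ℕ) : Finset (Fin A ⊕ Fin b ≃ Fin (A + b)) := by
  classical exact Finset.univ.filter (fun f => ChainMono f)

theorem mem_CM {A b : ℕ} {f : Fin A ⊕ Fin b ≃ Fin (A + b)} : f ∈ CM A b ↔ ChainMono f := by
  classical
  unfold CM
  rw [Finset.mem_filter]
  simp

/-- Transfer of sums. -/
theorem sum_chainMono {M : Type*} [AddCommMonoid M] (A b : ℕ) (G : (Fin A → ℕ) → M) :
    (∑ f ∈ CM A b, G (before f)) = ∑ t ∈ Mon b A 0, G t := by
  classical
  refine Finset.sum_bij (fun f _ => before f) ?_ ?_ ?_ ?_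
  · intro f hf
    rw [mem_CM] at hf
    rw [mem_Mon]
    exact ⟨fun k => ⟨Nat.zero_le _, before_le f k⟩, before_mono f hf⟩
  · intro f hf f' hf' h
    rw [mem_CM] at hf hf'
    apply Equiv.ext
    intro y
    apply Fin.ext
    rcases y with k | l
    · rw [val_inl f hf, val_inl f' hf']
      rw [h]
    · rw [val_inr f hf, val_inr f' hf']
      rw [h]
  · intro t ht
    rw [mem_Mon] at ht
    obtain ⟨f, hf, hf'⟩ := exists_of_seq (b := b) t ht.2 (fun k => (ht.1 k).2)
    exact ⟨f, mem_CM.mpr hf, funext hf'⟩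
  · intro f _
    rfl

/-- Total of the `inr` positions. -/
theorem sum_inr {A b : ℕ} (f : Fin A ⊕ Fin b ≃ Fin (A + b)) (hf : ChainMono f) :
    (2 : ℤ) * ∑ l, ((f (Sum.inr l) : ℕ) : ℤ) = (A + b) * (A + b - 1) - A * (A - 1)
      - 2 * ∑ k, (before f k : ℤ) := by
  have h1 : ∑ y, ((f y : ℕ) : ℤ) = ∑ v : Fin (A + b), ((v : ℕ) : ℤ) := Equiv.sum_comp f (fun v => ((v : ℕ) : ℤ))
  have h2 : ∀ n : ℕ, (2 : ℤ) * ∑ v : Fin n, ((v : ℕ) : ℤ) = n * (n - 1) := by
    intro n
    induction n with
    | zero => simp
    | succ n ih =>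
      rw [Fin.sum_univ_castSucc, mul_add]
      simp only [Fin.val_castSucc, Fin.val_last]
      rw [ih]; push_cast; ring
  have h3 := h2 (A + b)
  rw [← h1, Fintype.sum_sum_type] at h3
  have h4 : ∑ k, ((f (Sum.inl k) : ℕ) : ℤ) = ∑ k : Fin A, ((k : ℕ) : ℤ) + ∑ k, (before f k : ℤ) := by
    rw [← Finset.sum_add_distrib]
    refine Finset.sum_congr rfl ?_
    intro k _
    rw [val_inl f hf]; push_cast; ring
  have h5 := h2 A
  push_cast at h3
  rw [h4] at h3
  linarith

end X314.Height
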