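import Pool.Agent.X314.Height2

/-! Linear extensions, average heights, and the poset of the counterexample. -/

namespace X314.Height

open Finset

/-- A linear extension of a poset, as a bijection onto `Fin n`. -/
def IsLinExt {P : Type*} [PartialOrder P] {n : ℕ} (f : P ≃ Fin n) : Prop :=
  ∀ u v : P, u < v → f u < f v

/-- All linear extensions of `P`, as bijections onto `Fin n` (empty unless `n = |P|`). -/
noncomputable def linExts (P : Type*) [Fintype P] [PartialOrder P] (n : ℕ) :
    Finset (P ≃ Fin n) := by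
  classical exact Finset.univ.filter (fun f => IsLinExt f)

theorem mem_linExts {P : Type*} [Fintype P] [PartialOrder P] {n : ℕ} {f : P ≃ Fin n} :
    f ∈ linExts P n ↔ IsLinExt f := by
  classical
  unfold linExts
  rw [Finset.mem_filter]
  simp

/-- The average height: the mean over all linear extensions of the position in `1, …, |P|`. -/
noncomputable def avgHeight (P : Type*) [Fintype P] [PartialOrder P] (y : P) : ℝ :=
  (∑ f ∈ linExts P (Fintype.card P), (((f y : ℕ) : ℝ) + 1)) /
    ((linExts P (Fintype.card P)).card : ℝ)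

theorem avgHeight_eq (P : Type*) [Fintype P] [PartialOrder P] (n : ℕ) (h : Fintype.card P = n)
    (y : P) : avgHeight P y = (∑ f ∈ linExts P n, (((f y : ℕ) : ℝ) + 1)) /
      ((linExts P n).card : ℝ) := by
  subst h; rfl

/-- The underlying set: the chain `c`, the extra element `x` and the chain `d`. -/
def PP (a b i j : ℕ) : Type :=
  let _ := i; let _ := j; Option (Fin a) ⊕ Fin b

variable {a b i j : ℕ}

/-- elements of the first chain -/
def cc (k : Fin a) : PP a b i j := (Sum.inl (some k) : Option (Fin a) ⊕ Fin b)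
/-- the extra element -/
def xx : PP a b i j := (Sum.inl none : Option (Fin a) ⊕ Fin b)
/-- elements of the second chain -/
def dd (l : Fin b) : PP a b i j := (Sum.inr l : Option (Fin a) ⊕ Fin b)

noncomputable instance : Fintype (PP a b i j) :=
  inferInstanceAs (Fintype (Option (Fin a) ⊕ Fin b))

theorem card_PP : Fintype.card (PP a b i j) = a + 1 + b := by
  have : Fintype.card (PP a b i j) = Fintype.card (Option (Fin a) ⊕ Fin b) := rfl
  rw [this]; simp

/-- The order relation: two chains, the first `i` elements of the first chain are below `x`,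
and `x` is below the elements of index `≥ j` of the second chain. -/
def rel (i j : ℕ) : Option (Fin a) ⊕ Fin b → Option (Fin a) ⊕ Fin b → Prop
  | Sum.inl (some k), Sum.inl (some k') => k ≤ k'
  | Sum.inl (some k), Sum.inl none => (k : ℕ) < i
  | Sum.inl none, Sum.inl (some _) => False
  | Sum.inl none, Sum.inl none => True
  | Sum.inl none, Sum.inr l => j ≤ (l : ℕ)
  | Sum.inl (some k), Sum.inr l => (k : ℕ) < i ∧ j ≤ (l : ℕ)
  | Sum.inr _, Sum.inl _ => False
  | Sum.inr l, Sum.inr l' => l ≤ l'

instance instPO : PartialOrder (PP a b i j) where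
  le u v := rel (a := a) (b := b) i j u v
  le_refl u := by
    rcases u with (_ | k) | l <;> simp [rel]
  le_trans u v w huv hvw := by
    rcases u with (_ | k) | l <;> rcases v with (_ | k') | l' <;> rcases w with (_ | k'') | l'' <;>
      simp only [rel, Fin.le_def] at * <;> omega
  le_antisymm u v huv hvu := by
    rcases u with (_ | k) | l <;> rcases v with (_ | k') | l' <;>
      simp only [rel, Fin.le_def] at * <;> first | rfl | skip
    · have : k = k' := Fin.ext (by omega)
      rw [this]
    · have : l = l' := Fin.ext (by omega)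
      rw [this]

theorem le_iff (u v : PP a b i j) : u ≤ v ↔ rel (a := a) (b := b) i j u v := Iff.rfl

theorem cc_le_cc (k k' : Fin a) : (cc k : PP a b i j) ≤ cc k' ↔ k ≤ k' := Iff.rfl
theorem cc_le_xx (k : Fin a) : (cc k : PP a b i j) ≤ xx ↔ (k : ℕ) < i := Iff.rfl
theorem xx_le_cc (k : Fin a) : (xx : PP a b i j) ≤ cc k ↔ False := Iff.rfl
theorem xx_le_dd (l : Fin b) : (xx : PP a b i j) ≤ dd l ↔ j ≤ (l : ℕ) := Iff.rfl
theorem cc_le_dd (k : Fin a) (l : Fin b) : (cc k : PP a b i j) ≤ dd l ↔ (k : ℕ) < i ∧ j ≤ (l : ℕ) :=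
  Iff.rfl
theorem dd_le_cc (k : Fin a) (l : Fin b) : (dd l : PP a b i j) ≤ cc k ↔ False := Iff.rfl
theorem dd_le_xx (l : Fin b) : (dd l : PP a b i j) ≤ xx ↔ False := Iff.rfl
theorem dd_le_dd (l l' : Fin b) : (dd l : PP a b i j) ≤ dd l' ↔ l ≤ l' := Iff.rfl

theorem cases_PP {motive : PP a b i j → Prop} (u : PP a b i j) (h1 : motive xx)
    (h2 : ∀ k, motive (cc k)) (h3 : ∀ l, motive (dd l)) : motive u := by
  rcases u with (_ | k) | l
  · exact h1
  · exact h2 k
  · exact h3 l

/-- Linear extensions of `PP` in terms of the chains. -/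
theorem isLinExt_PP {n : ℕ} (hi : 1 ≤ i) (hia : i ≤ a) (hjb : j < b) (f : PP a b i j ≃ Fin n) :
    IsLinExt f ↔ (StrictMono fun k : Fin a => f (cc k)) ∧ (StrictMono fun l : Fin b => f (dd l)) ∧
      f (cc ⟨i - 1, by omega⟩) < f xx ∧ f xx < f (dd ⟨j, hjb⟩) := by
  constructor
  · intro h
    refine ⟨?_, ?_, ?_, ?_⟩
    · intro k k' hk
      apply h
      rw [lt_iff_le_not_ge, cc_le_cc, cc_le_cc]
      exact ⟨hk.le, not_le.mpr hk⟩
    · intro k k' hk
      apply h
      rw [lt_iff_le_not_ge, dd_le_dd, dd_le_dd]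
      exact ⟨hk.le, not_le.mpr hk⟩
    · apply h
      rw [lt_iff_le_not_ge, cc_le_xx, xx_le_cc]
      exact ⟨by simp only; omega, fun h => h⟩
    · apply h
      rw [lt_iff_le_not_ge, xx_le_dd, dd_le_xx]
      exact ⟨le_refl _, fun h => h⟩
  · rintro ⟨h1, h2, h3, h4⟩ u v huv
    have key1 : ∀ k : Fin a, (k : ℕ) < i → f (cc k) < f xx := by
      intro k hk
      refine lt_of_le_of_lt (h1.monotone ?_) h3
      rw [Fin.le_def]; simp only; omega
    have key2 : ∀ l : Fin b, j ≤ (l : ℕ) → f xx < f (dd l) := by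
      intro l hl
      refine lt_of_lt_of_le h4 (h2.monotone ?_)
      rw [Fin.le_def]; exact hl
    rw [lt_iff_le_not_ge] at huv
    obtain ⟨huv, hvu⟩ := huv
    revert huv hvu
    refine cases_PP (motive := fun u => u ≤ v → ¬ v ≤ u → f u < f v) u ?_ ?_ ?_
    · refine cases_PP (motive := fun v => xx ≤ v → ¬ v ≤ xx → f xx < f v) v ?_ ?_ ?_
      · intro _ h; exact absurd (le_refl _) h
      · intro k h; exact absurd h (by rw [xx_le_cc]; exact id)
      · intro l h _; exact key2 l ((xx_le_dd l).mp h)
    · intro k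
      refine cases_PP (motive := fun v => cc k ≤ v → ¬ v ≤ cc k → f (cc k) < f v) v ?_ ?_ ?_
      · intro h _; exact key1 k ((cc_le_xx k).mp h)
      · intro k' h h'
        rw [cc_le_cc] at h h'
        exact h1 (not_le.mp h')
      · intro l h _
        rw [cc_le_dd] at h
        exact (key1 k h.1).trans (key2 l h.2)
    · intro l
      refine cases_PP (motive := fun v => dd l ≤ v → ¬ v ≤ dd l → f (dd l) < f v) v ?_ ?_ ?_
      · intro h; exact absurd h (by rw [dd_le_xx]; exact id)
      · intro k' h; exact absurd h (by rw [dd_le_cc]; exact id)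
      · intro l' h h'
        rw [dd_le_dd] at h h'
        exact h2 (not_le.mp h')

/-- Reindexing: `x` is inserted at place `r` of the first chain. -/
def ins (r : Fin (a + 1)) : PP a b i j ≃ Fin (a + 1) ⊕ Fin b :=
  (Equiv.sumCongr (finSuccEquiv' r).symm (Equiv.refl (Fin b)) :
    Option (Fin a) ⊕ Fin b ≃ Fin (a + 1) ⊕ Fin b)

theorem ins_cc (r : Fin (a + 1)) (k : Fin a) :
    (ins r : PP a b i j ≃ _) (cc k) = Sum.inl (r.succAbove k) := by
  show (Equiv.sumCongr (finSuccEquiv' r).symm (Equiv.refl (Fin b))) (Sum.inl (some k)) = _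
  simp [finSuccEquiv'_symm_some]

theorem ins_xx (r : Fin (a + 1)) : (ins r : PP a b i j ≃ _) xx = Sum.inl r := by
  show (Equiv.sumCongr (finSuccEquiv' r).symm (Equiv.refl (Fin b))) (Sum.inl none) = _
  simp [finSuccEquiv'_symm_none]

theorem ins_dd (r : Fin (a + 1)) (l : Fin b) :
    (ins r : PP a b i j ≃ _) (dd l) = Sum.inr l := by
  show (Equiv.sumCongr (finSuccEquiv' r).symm (Equiv.refl (Fin b))) (Sum.inr l) = _
  simp

/-- place of `x` among the first chain -/
def Place {n : ℕ} (f : PP a b i j ≃ Fin n) (r : Fin (a + 1)) : Prop :=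
  ∀ k : Fin a, f (cc k) < f xx ↔ (k : ℕ) < (r : ℕ)

theorem place_unique {n : ℕ} (f : PP a b i j ≃ Fin n) {r r' : Fin (a + 1)} (h : Place f r)
    (h' : Place f r') : r = r' := by
  by_contra hne
  rcases lt_or_gt_of_ne hne with hlt | hlt
  · have hlt' : (r : ℕ) < r' := hlt
    have := (h' ⟨r, by omega⟩).mpr hlt'
    have := (h ⟨r, by omega⟩).mp this
    simp at this
  · have hlt' : (r' : ℕ) < r := hlt
    have := (h ⟨r', by omega⟩).mpr hlt'
    have := (h' ⟨r', by omega⟩).mp this
    simp at this

theorem place_exists {n : ℕ} (f : PP a b i j ≃ Fin n) (hf : StrictMono fun k : Fin a => f (cc k)) :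
    ∃ r, Place f r := by
  classical
  let S : Finset (Fin a) := Finset.univ.filter (fun k => f (cc k) < f xx)
  have hS : S.card ≤ a := by
    calc _ ≤ (Finset.univ : Finset (Fin a)).card := Finset.card_le_card (Finset.filter_subset _ _)
      _ = a := by simp
  refine ⟨⟨S.card, by omega⟩, ?_⟩
  intro k
  have := lower_card S (by
    intro l hl l' hl'
    simp only [S, Finset.mem_filter, Finset.mem_univ, true_and] at *
    exact lt_of_le_of_lt (hf.monotone hl') hl) k
  simpa [S] using this

/-- The combined characterisation. -/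
theorem place_linExt_iff (hi : 1 ≤ i) (hia : i ≤ a) (hjb : j < b) (r : Fin (a + 1))
    (g : Fin (a + 1) ⊕ Fin b ≃ Fin (a + 1 + b)) :
    (IsLinExt ((ins r : PP a b i j ≃ _).trans g) ∧ Place ((ins r : PP a b i j ≃ _).trans g) r) ↔
      (ChainMono g ∧ i ≤ (r : ℕ) ∧ before g r ≤ j) := by
  rw [isLinExt_PP hi hia hjb]
  have e1 : ∀ k, ((ins r : PP a b i j ≃ _).trans g) (cc k) = g (Sum.inl (r.succAbove k)) := by
    intro k; rw [Equiv.trans_apply, ins_cc]
  have e2 : ((ins r : PP a b i j ≃ _).trans g) xx = g (Sum.inl r) := by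
    rw [Equiv.trans_apply, ins_xx]
  have e3 : ∀ l, ((ins r : PP a b i j ≃ _).trans g) (dd l) = g (Sum.inr l) := by
    intro l; rw [Equiv.trans_apply, ins_dd]
  simp only [Place, e1, e2, e3]
  constructor
  · rintro ⟨⟨h1, h2, h3, h4⟩, h5⟩
    have hg : ChainMono g := by
      refine ⟨?_, h2⟩
      intro p q hpq
      simp only
      have hinj : g (Sum.inl p) ≠ g (Sum.inl q) := by
        intro hc
        have := g.injective hc
        simp only [Sum.inl.injEq] at this
        exact absurd this hpq.ne
      by_cases hp : p = r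
      · subst hp
        obtain ⟨q', rfl⟩ : ∃ q', p.succAbove q' = q := Fin.exists_succAbove_eq hpq.ne'
        have hq' : ¬ ((q' : ℕ) < (p : ℕ)) := by
          intro hc
          have hc' : q'.castSucc < p := hc
          rw [Fin.succAbove_of_castSucc_lt _ _ hc'] at hpq
          exact absurd hpq (not_lt.mpr hc'.le)
        have := (h5 q').not.mpr hq'
        exact lt_of_le_of_ne (not_lt.mp this) hinj
      · by_cases hq : q = r
        · subst hq
          obtain ⟨p', rfl⟩ : ∃ p', q.succAbove p' = p := Fin.exists_succAbove_eq hp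
          apply (h5 p').mpr
          by_contra hc
          have hc' : q ≤ p'.castSucc := by
            rw [Fin.le_def]; simpa using hc
          rw [Fin.succAbove_of_le_castSucc _ _ hc'] at hpq
          have : (p'.succ : Fin (a + 1)) < p'.castSucc := lt_of_lt_of_le hpq hc'
          rw [Fin.lt_def] at this
          simp at this
        · obtain ⟨q', rfl⟩ : ∃ q', r.succAbove q' = q := Fin.exists_succAbove_eq hq
          obtain ⟨p', rfl⟩ : ∃ p', r.succAbove p' = p := Fin.exists_succAbove_eq hp
          exact h1 ((Fin.strictMono_succAbove r).lt_iff_lt.mp hpq)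
    refine ⟨hg, ?_, ?_⟩
    · have := (h5 ⟨i - 1, by omega⟩).mp h3
      simp only at this
      omega
    · exact (inl_lt_inr g hg r ⟨j, hjb⟩).mp h4
  · rintro ⟨hg, h1, h2⟩
    have h5 : ∀ k : Fin a, g (Sum.inl (r.succAbove k)) < g (Sum.inl r) ↔ (k : ℕ) < (r : ℕ) := by
      intro k
      rw [show (g (Sum.inl (r.succAbove k)) < g (Sum.inl r)) ↔ r.succAbove k < r from
        hg.1.lt_iff_lt (a := r.succAbove k) (b := r)]
      constructor
      · intro h
        by_contra hc
        have hc' : r ≤ k.castSucc := by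
          rw [Fin.le_def]; simpa using hc
        rw [Fin.succAbove_of_le_castSucc _ _ hc'] at h
        have : (k.succ : Fin (a + 1)) < k.castSucc := lt_of_lt_of_le h hc'
        rw [Fin.lt_def] at this
        simp at this
      · intro h
        have hc' : k.castSucc < r := h
        rw [Fin.succAbove_of_castSucc_lt _ _ hc']
        exact hc'
    refine ⟨⟨?_, hg.2, ?_, ?_⟩, h5⟩
    · intro k k' h
      exact hg.1 ((Fin.strictMono_succAbove r).lt_iff_lt.mpr h)
    · rw [h5]; simp only; omega
    · exact (inl_lt_inr g hg r ⟨j, hjb⟩).mpr h2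

end X314.Height
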