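import Pool.Agent.X314.Height3

/-! Sums over linear extensions of the poset and of the poset with `x` deleted. -/

namespace X314.Height

open Finset

variable {a b i j : ℕ}

/-- Sums over the linear extensions of the poset. -/
theorem sum_linExts_PP (hi : 1 ≤ i) (hia : i ≤ a) (hjb : j < b) {M : Type*} [AddCommMonoid M]
    (H : (PP a b i j ≃ Fin (a + 1 + b)) → M) :
    ∑ f ∈ linExts (PP a b i j) (a + 1 + b), H f =
      ∑ r : Fin (a + 1), ∑ g ∈ CM (a + 1) b,
        if i ≤ (r : ℕ) ∧ before g r ≤ j then H ((ins r).trans g) else 0 := by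
  classical
  calc ∑ f ∈ linExts (PP a b i j) (a + 1 + b), H f
      = ∑ f ∈ linExts (PP a b i j) (a + 1 + b), ∑ r : Fin (a + 1),
          if Place f r then H f else 0 := by
        refine Finset.sum_congr rfl ?_
        intro f hf
        rw [mem_linExts, isLinExt_PP hi hia hjb] at hf
        obtain ⟨r, hr⟩ := place_exists f hf.1
        rw [Finset.sum_eq_single r]
        · rw [if_pos hr]
        · intro r' _ hne
          rw [if_neg]
          intro hr'
          exact hne (place_unique f hr' hr)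
        · intro h; exact absurd (Finset.mem_univ _) h
    _ = ∑ r : Fin (a + 1), ∑ f ∈ linExts (PP a b i j) (a + 1 + b),
          if Place f r then H f else 0 := Finset.sum_comm
    _ = _ := by
        refine Finset.sum_congr rfl ?_
        intro r _
        rw [← Finset.sum_filter, ← Finset.sum_filter]
        refine Finset.sum_bij' (fun f _ => (ins r).symm.trans f) (fun g _ => (ins r).trans g)
          ?_ ?_ ?_ ?_ ?_
        · intro f hf
          rw [Finset.mem_filter, mem_linExts] at hf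
          rw [Finset.mem_filter, mem_CM]
          have := place_linExt_iff hi hia hjb r ((ins r).symm.trans f)
          rw [← Equiv.trans_assoc, Equiv.self_trans_symm, Equiv.refl_trans] at this
          have h2 := this.mp ⟨hf.1, hf.2⟩
          exact ⟨h2.1, h2.2⟩
        · intro g hg
          rw [Finset.mem_filter, mem_CM] at hg
          rw [Finset.mem_filter, mem_linExts]
          exact (place_linExt_iff hi hia hjb r g).mpr ⟨hg.1, hg.2.1, hg.2.2⟩
        · intro f _
          rw [← Equiv.trans_assoc, Equiv.self_trans_symm, Equiv.refl_trans]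
        · intro g _
          rw [← Equiv.trans_assoc, Equiv.symm_trans_self, Equiv.refl_trans]
        · intro f _
          rw [← Equiv.trans_assoc, Equiv.self_trans_symm, Equiv.refl_trans]

/-- The poset without `x`. -/
abbrev QQ (a b i j : ℕ) : Type := {y : PP a b i j // y ≠ xx}

theorem cc_ne (k : Fin a) : (cc k : PP a b i j) ≠ xx := by
  intro h
  have : (Sum.inl (some k) : Option (Fin a) ⊕ Fin b) = Sum.inl none := h
  simp at this

theorem dd_ne (l : Fin b) : (dd l : PP a b i j) ≠ xx := by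
  intro h
  have : (Sum.inr l : Option (Fin a) ⊕ Fin b) = Sum.inl none := h
  simp at this

/-- The elements of the poset without `x`. -/
def eQfun : Fin a ⊕ Fin b → QQ a b i j
  | Sum.inl k => ⟨cc k, cc_ne k⟩
  | Sum.inr l => ⟨dd l, dd_ne l⟩

theorem eQ_bij : Function.Bijective (eQfun : Fin a ⊕ Fin b → QQ a b i j) := by
  constructor
  · rintro (k | l) (k' | l') h
    · have h1 : (cc k : PP a b i j) = cc k' := congrArg Subtype.val h
      have h2 : (Sum.inl (some k) : Option (Fin a) ⊕ Fin b) = Sum.inl (some k') := h1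
      simp only [Sum.inl.injEq, Option.some.injEq] at h2
      rw [h2]
    · have h1 : (cc k : PP a b i j) = dd l' := congrArg Subtype.val h
      have h2 : (Sum.inl (some k) : Option (Fin a) ⊕ Fin b) = Sum.inr l' := h1
      simp at h2
    · have h1 : (dd l : PP a b i j) = cc k' := congrArg Subtype.val h
      have h2 : (Sum.inr l : Option (Fin a) ⊕ Fin b) = Sum.inl (some k') := h1
      simp at h2
    · have h1 : (dd l : PP a b i j) = dd l' := congrArg Subtype.val h
      have h2 : (Sum.inr l : Option (Fin a) ⊕ Fin b) = Sum.inr l' := h1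
      simp only [Sum.inr.injEq] at h2
      rw [h2]
  · rintro ⟨u, hu⟩
    revert hu
    refine cases_PP (motive := fun u => ∀ hu : u ≠ xx, ∃ y, (eQfun y : QQ a b i j) = ⟨u, hu⟩) u ?_ ?_ ?_
    · intro h; exact absurd rfl h
    · intro k _; exact ⟨Sum.inl k, rfl⟩
    · intro l _; exact ⟨Sum.inr l, rfl⟩

/-- The elements of the poset without `x`, as an equivalence. -/
noncomputable def eQ : Fin a ⊕ Fin b ≃ QQ a b i j := Equiv.ofBijective _ eQ_bij

theorem eQ_inl (k : Fin a) : (eQ (Sum.inl k) : QQ a b i j) = ⟨cc k, cc_ne k⟩ := rfl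
theorem eQ_inr (l : Fin b) : (eQ (Sum.inr l) : QQ a b i j) = ⟨dd l, dd_ne l⟩ := rfl

noncomputable instance instFQ : Fintype (QQ a b i j) := by
  classical exact Subtype.fintype _

theorem card_QQ : Fintype.card (QQ a b i j) = a + b := by
  rw [← Fintype.card_congr (eQ : Fin a ⊕ Fin b ≃ QQ a b i j)]
  simp

theorem isLinExt_QQ (hi : 1 ≤ i) (hia : i ≤ a) (hjb : j < b)
    (g : Fin a ⊕ Fin b ≃ Fin (a + b)) :
    IsLinExt ((eQ : _ ≃ QQ a b i j).symm.trans g) ↔
      (ChainMono g ∧ before g ⟨i - 1, by omega⟩ ≤ j) := by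
  have e1 : ∀ k, ((eQ : _ ≃ QQ a b i j).symm.trans g) ⟨cc k, cc_ne k⟩ = g (Sum.inl k) := by
    intro k; rw [← eQ_inl, Equiv.trans_apply, Equiv.symm_apply_apply]
  have e2 : ∀ l, ((eQ : _ ≃ QQ a b i j).symm.trans g) ⟨dd l, dd_ne l⟩ = g (Sum.inr l) := by
    intro l; rw [← eQ_inr, Equiv.trans_apply, Equiv.symm_apply_apply]
  constructor
  · intro h
    have hg : ChainMono g := by
      constructor
      · intro k k' hk
        simp only
        rw [← e1, ← e1]
        apply h
        rw [Subtype.mk_lt_mk, lt_iff_le_not_ge, cc_le_cc, cc_le_cc]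
        exact ⟨hk.le, not_le.mpr hk⟩
      · intro k k' hk
        simp only
        rw [← e2, ← e2]
        apply h
        rw [Subtype.mk_lt_mk, lt_iff_le_not_ge, dd_le_dd, dd_le_dd]
        exact ⟨hk.le, not_le.mpr hk⟩
    refine ⟨hg, ?_⟩
    apply (inl_lt_inr g hg _ ⟨j, hjb⟩).mp
    rw [← e1, ← e2]
    apply h
    rw [Subtype.mk_lt_mk, lt_iff_le_not_ge, cc_le_dd, dd_le_cc]
    refine ⟨⟨?_, ?_⟩, id⟩
    · simp only; omega
    · exact le_refl _
  · rintro ⟨hg, h2⟩ ⟨u, hu⟩ ⟨v, hv⟩ huv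
    have h3 : g (Sum.inl ⟨i - 1, by omega⟩) < g (Sum.inr ⟨j, hjb⟩) :=
      (inl_lt_inr g hg _ ⟨j, hjb⟩).mpr h2
    rw [Subtype.mk_lt_mk, lt_iff_le_not_ge] at huv
    obtain ⟨huv, hvu⟩ := huv
    revert hu hv huv hvu
    refine cases_PP (motive := fun u => ∀ (hu : u ≠ xx) (hv : v ≠ xx), u ≤ v → ¬ v ≤ u →
      ((eQ : _ ≃ QQ a b i j).symm.trans g) ⟨u, hu⟩ < ((eQ : _ ≃ QQ a b i j).symm.trans g) ⟨v, hv⟩)
      u ?_ ?_ ?_
    · intro h; exact absurd rfl h
    · intro k
      refine cases_PP (motive := fun v => ∀ (hu : (cc k : PP a b i j) ≠ xx) (hv : v ≠ xx), cc k ≤ v → ¬ v ≤ cc k →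
        ((eQ : _ ≃ QQ a b i j).symm.trans g) ⟨cc k, hu⟩ < ((eQ : _ ≃ QQ a b i j).symm.trans g) ⟨v, hv⟩)
        v ?_ ?_ ?_
      · intro _ h; exact absurd rfl h
      · intro k' _ _ h h'
        rw [e1, e1]
        rw [cc_le_cc] at h h'
        exact hg.1 (not_le.mp h')
      · intro l _ _ h h'
        rw [e1, e2]
        rw [cc_le_dd] at h
        refine lt_of_le_of_lt (hg.1.monotone ?_) (lt_of_lt_of_le h3 (hg.2.monotone ?_))
        · rw [Fin.le_def]; simp only; omega
        · rw [Fin.le_def]; exact h.2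
    · intro l
      refine cases_PP (motive := fun v => ∀ (hu : (dd l : PP a b i j) ≠ xx) (hv : v ≠ xx), dd l ≤ v → ¬ v ≤ dd l →
        ((eQ : _ ≃ QQ a b i j).symm.trans g) ⟨dd l, hu⟩ < ((eQ : _ ≃ QQ a b i j).symm.trans g) ⟨v, hv⟩)
        v ?_ ?_ ?_
      · intro _ h; exact absurd rfl h
      · intro k' _ _ h
        exact absurd h (by rw [dd_le_cc]; exact id)
      · intro l' _ _ h h'
        rw [e2, e2]
        rw [dd_le_dd] at h h'
        exact hg.2 (not_le.mp h')

/-- Sums over the linear extensions of the poset without `x`. -/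
theorem sum_linExts_QQ (hi : 1 ≤ i) (hia : i ≤ a) (hjb : j < b) {M : Type*} [AddCommMonoid M]
    (H : (QQ a b i j ≃ Fin (a + b)) → M) :
    ∑ f ∈ linExts (QQ a b i j) (a + b), H f =
      ∑ g ∈ CM a b,
        if before g ⟨i - 1, by omega⟩ ≤ j then H (eQ.symm.trans g) else 0 := by
  classical
  rw [← Finset.sum_filter]
  refine Finset.sum_bij' (fun f _ => eQ.trans f) (fun g _ => eQ.symm.trans g) ?_ ?_ ?_ ?_ ?_
  · intro f hf
    rw [mem_linExts] at hf
    rw [Finset.mem_filter, mem_CM]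
    have := isLinExt_QQ hi hia hjb (eQ.trans f)
    rw [← Equiv.trans_assoc, Equiv.symm_trans_self, Equiv.refl_trans] at this
    exact this.mp hf
  · intro g hg
    rw [Finset.mem_filter, mem_CM] at hg
    rw [mem_linExts]
    exact (isLinExt_QQ hi hia hjb g).mpr hg
  · intro f _
    rw [← Equiv.trans_assoc, Equiv.symm_trans_self, Equiv.refl_trans]
  · intro g _
    rw [← Equiv.trans_assoc, Equiv.self_trans_symm, Equiv.refl_trans]
  · intro f _
    rw [← Equiv.trans_assoc, Equiv.symm_trans_self, Equiv.refl_trans]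

/-! Closed forms -/

/-- weight -/
def cw (A b r v : ℕ) : ℤ := (r + v).choose r * (A - 1 - r + (b - v)).choose (A - 1 - r)

/-- weighted total -/
def cs (A b r v : ℕ) : ℤ := (r * v + 2 * v + ((A - 1 - r : ℕ) : ℤ) * (v + b)) * cw A b r v

theorem cnt_cap (A b j : ℕ) (hj : j ≤ b) (r : Fin A) :
    ∑ t ∈ Mon b A 0, (if t r ≤ j then (1 : ℤ) else 0) = ∑ v ∈ range (j + 1), cw A b r v := by
  have h1 : ∀ t ∈ Mon b A 0, (if t r ≤ j then (1 : ℤ) else 0) =
      ∑ v ∈ range (j + 1), (if t ⟨r, r.2⟩ = v then (1 : ℤ) else 0) := by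
    intro t _
    by_cases h : t r ≤ j
    · rw [if_pos h, Finset.sum_eq_single (t r)]
      · simp
      · intro v _ hv
        rw [if_neg]; exact fun hc => hv hc.symm
      · intro hc
        exact absurd (Finset.mem_range.mpr (by omega)) hc
    · rw [if_neg h]
      symm
      refine Finset.sum_eq_zero ?_
      intro v hv
      rw [Finset.mem_range] at hv
      rw [if_neg]
      intro hc
      have hc' : t r = v := hc
      omega
  rw [Finset.sum_congr rfl h1, Finset.sum_comm]
  refine Finset.sum_congr rfl ?_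
  intro v hv
  rw [Finset.mem_range] at hv
  rw [cnt_mark b v (by omega) r A r.2 0 (Nat.zero_le _)]
  rfl

theorem tot_cap (A b j : ℕ) (hj : j ≤ b) (r : Fin A) :
    2 * ∑ t ∈ Mon b A 0, (if t r ≤ j then ∑ k, (t k : ℤ) else 0) = ∑ v ∈ range (j + 1), cs A b r v := by
  have h1 : ∀ t ∈ Mon b A 0, (if t r ≤ j then ∑ k, (t k : ℤ) else 0) =
      ∑ v ∈ range (j + 1), (if t ⟨r, r.2⟩ = v then ∑ k, (t k : ℤ) else 0) := by
    intro t _
    by_cases h : t r ≤ j
    · rw [if_pos h, Finset.sum_eq_single (t r)]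
      · simp
      · intro v _ hv
        rw [if_neg]; exact fun hc => hv hc.symm
      · intro hc
        exact absurd (Finset.mem_range.mpr (by omega)) hc
    · rw [if_neg h]
      symm
      refine Finset.sum_eq_zero ?_
      intro v hv
      rw [Finset.mem_range] at hv
      rw [if_neg]
      intro hc
      have hc' : t r = v := hc
      omega
  rw [Finset.sum_congr rfl h1, Finset.sum_comm, Finset.mul_sum]
  refine Finset.sum_congr rfl ?_
  intro v hv
  rw [Finset.mem_range] at hv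
  rw [tot_mark b v (by omega) r A r.2 0 (Nat.zero_le _)]
  simp only [cs, cw, Nat.cast_zero, zero_add, Nat.sub_zero]

/-- number of linear extensions of the poset -/
def NP (a b i j : ℕ) : ℤ :=
  ∑ r ∈ range (a + 1), if i ≤ r then ∑ v ∈ range (j + 1), cw (a + 1) b r v else 0
def SP (a b i j : ℕ) : ℤ :=
  ∑ r ∈ range (a + 1), if i ≤ r then ∑ v ∈ range (j + 1), cs (a + 1) b r v else 0
def NQ (a b i j : ℕ) : ℤ := ∑ v ∈ range (j + 1), cw a b (i - 1) v
def SQ (a b i j : ℕ) : ℤ := ∑ v ∈ range (j + 1), cs a b (i - 1) v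

theorem card_linExts_PP (hi : 1 ≤ i) (hia : i ≤ a) (hjb : j < b) :
    ((linExts (PP a b i j) (a + 1 + b)).card : ℤ) = NP a b i j := by
  rw [Finset.card_eq_sum_ones]
  push_cast
  rw [sum_linExts_PP hi hia hjb (fun _ => (1 : ℤ)), NP, Finset.sum_range]
  refine Finset.sum_congr rfl ?_
  intro r _
  by_cases h : i ≤ (r : ℕ)
  · simp only [h, true_and, if_true]
    rw [← cnt_cap (a + 1) b j hjb.le r]
    exact sum_chainMono (a + 1) b (fun t => if t r ≤ j then (1 : ℤ) else 0)
  · simp [h]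

theorem card_linExts_QQ (hi : 1 ≤ i) (hia : i ≤ a) (hjb : j < b) :
    ((linExts (QQ a b i j) (a + b)).card : ℤ) = NQ a b i j := by
  rw [Finset.card_eq_sum_ones]
  push_cast
  rw [sum_linExts_QQ hi hia hjb (fun _ => (1 : ℤ)), NQ]
  rw [← cnt_cap a b j hjb.le ⟨i - 1, by omega⟩]
  exact sum_chainMono a b (fun t => if t ⟨i - 1, by omega⟩ ≤ j then (1 : ℤ) else 0)

theorem tot_linExts_PP (hi : 1 ≤ i) (hia : i ≤ a) (hjb : j < b) :
    2 * ∑ f ∈ linExts (PP a b i j) (a + 1 + b), ∑ l : Fin b, ((f (dd l) : ℕ) : ℤ) =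
      ((a + 1 + b) * (a + b) - (a + 1) * a) * NP a b i j - SP a b i j := by
  rw [sum_linExts_PP hi hia hjb (fun f => ∑ l : Fin b, ((f (dd l) : ℕ) : ℤ)), NP, SP,
    Finset.sum_range, Finset.sum_range, Finset.mul_sum, Finset.mul_sum, ← Finset.sum_sub_distrib]
  refine Finset.sum_congr rfl ?_
  intro r _
  by_cases h : i ≤ (r : ℕ)
  · simp only [h, true_and, if_true]
    rw [← cnt_cap (a + 1) b j hjb.le r, ← tot_cap (a + 1) b j hjb.le r]
    rw [← sum_chainMono (a + 1) b (fun t => if t r ≤ j then (1 : ℤ) else 0)]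
    rw [← sum_chainMono (a + 1) b (fun t => if t r ≤ j then ∑ k, (t k : ℤ) else 0)]
    rw [Finset.mul_sum, Finset.mul_sum, Finset.mul_sum, ← Finset.sum_sub_distrib]
    refine Finset.sum_congr rfl ?_
    intro g hg
    rw [mem_CM] at hg
    by_cases h2 : before g r ≤ j
    · simp only [h2, if_true]
      have h3 := sum_inr g hg
      have h4 : ∀ l : Fin b, (((ins r : PP a b i j ≃ _).trans g) (dd l)) = g (Sum.inr l) := by
        intro l; rw [Equiv.trans_apply, ins_dd]
      simp only [h4]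
      rw [h3]
      push_cast
      ring
    · simp [h2]
  · simp [h]

theorem tot_linExts_QQ (hi : 1 ≤ i) (hia : i ≤ a) (hjb : j < b) :
    2 * ∑ f ∈ linExts (QQ a b i j) (a + b), ∑ l : Fin b, ((f ⟨dd l, dd_ne l⟩ : ℕ) : ℤ) =
      ((a + b) * (a + b - 1) - a * (a - 1)) * NQ a b i j - SQ a b i j := by
  rw [sum_linExts_QQ hi hia hjb (fun f => ∑ l : Fin b, ((f ⟨dd l, dd_ne l⟩ : ℕ) : ℤ)), NQ, SQ]
  have hr : i - 1 < a := by omega
  have e1 := cnt_cap a b j hjb.le ⟨i - 1, hr⟩
  have e2 := tot_cap a b j hjb.le ⟨i - 1, hr⟩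
  simp only at e1 e2
  rw [← e1, ← e2]
  rw [← sum_chainMono a b (fun t => if t ⟨i - 1, hr⟩ ≤ j then (1 : ℤ) else 0)]
  rw [← sum_chainMono a b (fun t => if t ⟨i - 1, hr⟩ ≤ j then ∑ k, (t k : ℤ) else 0)]
  rw [Finset.mul_sum, Finset.mul_sum, Finset.mul_sum, ← Finset.sum_sub_distrib]
  refine Finset.sum_congr rfl ?_
  intro g hg
  rw [mem_CM] at hg
  by_cases h2 : before g ⟨i - 1, hr⟩ ≤ j
  · simp only [h2, if_true]
    have h3 := sum_inr g hg
    have h4 : ∀ l : Fin b, (((eQ : _ ≃ QQ a b i j).symm.trans g) ⟨dd l, dd_ne l⟩) = g (Sum.inr l) := by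
      intro l; rw [← eQ_inr, Equiv.trans_apply, Equiv.symm_apply_apply]
    simp only [h4]
    rw [h3]
    ring
  · simp [h2]

end X314.Height
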