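import Pool.Agent.X314.Height4

/-! The lower bound for the sum and the numerical evaluation. -/

namespace X314.Height

open Finset

variable {a b i j : ℕ}

/-- The average heights of the second chain, in the poset. -/
theorem sum_avg_PP (hi : 1 ≤ i) (hia : i ≤ a) (hjb : j < b) (hN : 0 < NP a b i j) :
    2 * ∑ l : Fin b, avgHeight (PP a b i j) (dd l) =
      2 * b + ((a + 1 + b) * (a + b) - (a + 1) * a) - (SP a b i j : ℝ) / NP a b i j := by
  have hc := card_linExts_PP (a := a) (b := b) (i := i) (j := j) hi hia hjb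
  have ht := tot_linExts_PP (a := a) (b := b) (i := i) (j := j) hi hia hjb
  have hc' : ((linExts (PP a b i j) (a + 1 + b)).card : ℝ) = (NP a b i j : ℝ) := by
    exact_mod_cast hc
  have hN' : (0 : ℝ) < (NP a b i j : ℝ) := by exact_mod_cast hN
  have ht' : (2 : ℝ) * ∑ f ∈ linExts (PP a b i j) (a + 1 + b), ∑ l : Fin b, ((f (dd l) : ℕ) : ℝ) =
      ((a + 1 + b) * (a + b) - (a + 1) * a) * NP a b i j - SP a b i j := by
    exact_mod_cast ht
  simp only [avgHeight_eq (PP a b i j) (a + 1 + b) card_PP]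
  rw [← Finset.sum_div, Finset.sum_comm, hc']
  simp only [Finset.sum_add_distrib]
  rw [← mul_div_assoc, mul_add, ht']
  simp only [Finset.sum_const, Finset.card_univ, Fintype.card_fin, nsmul_eq_mul, mul_one]
  rw [hc']
  field_simp
  ring

/-- The average heights of the second chain, in the poset without `x`. -/
theorem sum_avg_QQ (hi : 1 ≤ i) (hia : i ≤ a) (hjb : j < b) (hN : 0 < NQ a b i j) :
    2 * ∑ l : Fin b, avgHeight (QQ a b i j) ⟨dd l, dd_ne l⟩ =
      2 * b + ((a + b) * (a + b - 1) - a * (a - 1)) - (SQ a b i j : ℝ) / NQ a b i j := by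
  have hc := card_linExts_QQ (a := a) (b := b) (i := i) (j := j) hi hia hjb
  have ht := tot_linExts_QQ (a := a) (b := b) (i := i) (j := j) hi hia hjb
  have hc' : ((linExts (QQ a b i j) (a + b)).card : ℝ) = (NQ a b i j : ℝ) := by
    exact_mod_cast hc
  have hN' : (0 : ℝ) < (NQ a b i j : ℝ) := by exact_mod_cast hN
  have ht' : (2 : ℝ) * ∑ f ∈ linExts (QQ a b i j) (a + b), ∑ l : Fin b,
      ((f ⟨dd l, dd_ne l⟩ : ℕ) : ℝ) =
      ((a + b) * (a + b - 1) - a * (a - 1)) * NQ a b i j - SQ a b i j := by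
    exact_mod_cast ht
  simp only [avgHeight_eq (QQ a b i j) (a + b) card_QQ]
  rw [← Finset.sum_div, Finset.sum_comm, hc']
  simp only [Finset.sum_add_distrib]
  rw [← mul_div_assoc, mul_add, ht']
  simp only [Finset.sum_const, Finset.card_univ, Fintype.card_fin, nsmul_eq_mul, mul_one]
  rw [hc']
  field_simp
  ring

/-- Lower bound for the sum of the positive parts. -/
theorem lower_bound (hi : 1 ≤ i) (hia : i ≤ a) (hjb : j < b) (hP : 0 < NP a b i j)
    (hQ : 0 < NQ a b i j) :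
    (b : ℝ) + ((SQ a b i j : ℝ) / NQ a b i j - (SP a b i j : ℝ) / NP a b i j) / 2 ≤
      ∑ y : QQ a b i j, max (avgHeight (PP a b i j) y.1 - avgHeight (QQ a b i j) y) 0 := by
  classical
  have h1 : ∑ y : QQ a b i j, max (avgHeight (PP a b i j) y.1 - avgHeight (QQ a b i j) y) 0
      = ∑ z : Fin a ⊕ Fin b, max (avgHeight (PP a b i j) (eQ z).1 - avgHeight (QQ a b i j) (eQ z)) 0 :=
    (Equiv.sum_comp (eQ : _ ≃ QQ a b i j) (fun y => max (avgHeight (PP a b i j) y.1 - avgHeight (QQ a b i j) y) 0)).symm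
  rw [h1, Fintype.sum_sum_type]
  have h2 : (0 : ℝ) ≤ ∑ k : Fin a, max (avgHeight (PP a b i j) (eQ (Sum.inl k)).1 - avgHeight (QQ a b i j) (eQ (Sum.inl k))) 0 :=
    Finset.sum_nonneg (fun _ _ => le_max_right _ _)
  have h3 : ∑ l : Fin b, (avgHeight (PP a b i j) (dd l) - avgHeight (QQ a b i j) ⟨dd l, dd_ne l⟩) ≤
      ∑ l : Fin b, max (avgHeight (PP a b i j) (eQ (Sum.inr l)).1 - avgHeight (QQ a b i j) (eQ (Sum.inr l))) 0 :=
    Finset.sum_le_sum (fun l _ => le_max_left _ _)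
  rw [Finset.sum_sub_distrib] at h3
  have h4 := sum_avg_PP hi hia hjb hP
  have h5 := sum_avg_QQ hi hia hjb hQ
  have h6 : 2 * (∑ l : Fin b, avgHeight (PP a b i j) (dd l) -
      ∑ l : Fin b, avgHeight (QQ a b i j) ⟨dd l, dd_ne l⟩) =
      2 * b + ((SQ a b i j : ℝ) / NQ a b i j - (SP a b i j : ℝ) / NP a b i j) := by
    rw [mul_sub, h4, h5]; ring
  linarith

/-! Kernel evaluation. -/

/-- fast binomial coefficient -/
def bin (n k : ℕ) : ℕ := n.descFactorial k / k.factorial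

theorem bin_eq (n k : ℕ) : bin n k = n.choose k := (Nat.choose_eq_descFactorial_div_factorial n k).symm

/-- structural sum -/
def sumTo (f : ℕ → ℕ) : ℕ → ℕ
  | 0 => 0
  | n + 1 => sumTo f n + f n

theorem sumTo_eq (f : ℕ → ℕ) (n : ℕ) : sumTo f n = ∑ k ∈ range n, f k := by
  induction n with
  | zero => rfl
  | succ n ih => rw [Finset.sum_range_succ, ← ih]; rfl

def cwN (A b r v : ℕ) : ℕ := bin (r + v) r * bin (A - 1 - r + (b - v)) (A - 1 - r)
def csN (A b r v : ℕ) : ℕ := (r * v + 2 * v + (A - 1 - r) * (v + b)) * cwN A b r v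

theorem cwN_eq (A b r v : ℕ) : (cwN A b r v : ℤ) = cw A b r v := by
  unfold cwN cw
  rw [bin_eq, bin_eq]; push_cast; rfl

theorem csN_eq (A b r v : ℕ) : (csN A b r v : ℤ) = cs A b r v := by
  unfold csN cs
  push_cast
  rw [cwN_eq]

def NPN (a b i j : ℕ) : ℕ := sumTo (fun r => if i ≤ r then sumTo (cwN (a + 1) b r) (j + 1) else 0) (a + 1)
def SPN (a b i j : ℕ) : ℕ := sumTo (fun r => if i ≤ r then sumTo (csN (a + 1) b r) (j + 1) else 0) (a + 1)
def NQN (a b i j : ℕ) : ℕ := sumTo (cwN a b (i - 1)) (j + 1)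
def SQN (a b i j : ℕ) : ℕ := sumTo (csN a b (i - 1)) (j + 1)

theorem NPN_eq (a b i j : ℕ) : (NPN a b i j : ℤ) = NP a b i j := by
  unfold NPN NP
  simp only [sumTo_eq]
  push_cast
  simp only [cwN_eq]

theorem SPN_eq (a b i j : ℕ) : (SPN a b i j : ℤ) = SP a b i j := by
  unfold SPN SP
  simp only [sumTo_eq]
  push_cast
  simp only [csN_eq]

theorem NQN_eq (a b i j : ℕ) : (NQN a b i j : ℤ) = NQ a b i j := by
  unfold NQN NQ
  simp only [sumTo_eq]
  push_cast
  simp only [cwN_eq]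

theorem SQN_eq (a b i j : ℕ) : (SQN a b i j : ℤ) = SQ a b i j := by
  unfold SQN SQ
  simp only [sumTo_eq]
  push_cast
  simp only [csN_eq]

theorem numeric : 0 < NPN 41 98 11 31 ∧ 0 < NQN 41 98 11 31 ∧
    SPN 41 98 11 31 * NQN 41 98 11 31 + 2 * 41 * (NPN 41 98 11 31 * NQN 41 98 11 31)
      < SQN 41 98 11 31 * NPN 41 98 11 31 := by
  decide +kernel

end X314.Height
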